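import Mathlib
import Pool.Agent.Helper999.Sq3.Slice
set_option autoImplicit false

namespace Pool.Agent.H161R3.Corner

open Finset

/-- product of at most `k` affine functions over `F_2` = combination of squarefree monomials with
at most `k` variables -/
theorem affine_prod (N : ℕ) {ι : Type} [DecidableEq ι] (f : ι → (Fin N → ZMod 2) → ZMod 2)
    (a : ι → Fin N → ZMod 2) (b : ι → ZMod 2) (hf : ∀ i x, f i x = b i + ∑ j, a i j * x j)
    (I : Finset ι) (D : ℕ) (hI : I.card ≤ D) :
    ∃ c : Finset (Fin N) → ZMod 2, ∀ x, ∏ i ∈ I, f i x =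
      ∑ S ∈ (Finset.univ : Finset (Finset (Fin N))).filter (fun S => S.card ≤ D),
        c S * ∏ j ∈ S, x j := by
  classical
  induction I using Finset.induction_on generalizing D with
  | empty =>
    refine ⟨fun S => if S = ∅ then 1 else 0, fun x => ?_⟩
    rw [Finset.prod_empty, Finset.sum_eq_single (∅ : Finset (Fin N))]
    · simp
    · intro S _ hS; simp [hS]
    · intro h; exact absurd (Finset.mem_filter.2 ⟨Finset.mem_univ _, by simp⟩) h
  | insert i I hi ih =>
    rw [Finset.card_insert_of_notMem hi] at hI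
    obtain ⟨E, rfl⟩ : ∃ E, D = E + 1 := ⟨D - 1, by omega⟩
    obtain ⟨c, hc⟩ := ih E (by omega)
    refine ⟨fun S => (if S.card ≤ E then b i * c S else 0) +
      ∑ T ∈ (Finset.univ : Finset (Finset (Fin N))).filter (fun T => T.card ≤ E),
        ∑ j, if insert j T = S then a i j * c T else 0, fun x => ?_⟩
    rw [Finset.prod_insert hi, hf, hc, add_mul, Finset.sum_mul]
    simp only [add_mul, Finset.sum_add_distrib]
    congr 1
    · rw [Finset.mul_sum]
      symm
      rw [← Finset.sum_subset (s₁ := (Finset.univ : Finset (Finset (Fin N))).filter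
        (fun S => S.card ≤ E))]
      · refine Finset.sum_congr rfl fun S hS => ?_
        rw [if_pos (Finset.mem_filter.1 hS).2]
        ring
      · intro S hS
        rw [Finset.mem_filter] at hS ⊢
        exact ⟨hS.1, by omega⟩
      · intro S _ hS
        rw [Finset.mem_filter, not_and] at hS
        rw [if_neg (hS (Finset.mem_univ _)), zero_mul]
    · have hx2 : ∀ t : ZMod 2, t * t = t := by decide
      have hprod : ∀ (j : Fin N) (T : Finset (Fin N)),
          x j * ∏ l ∈ T, x l = ∏ l ∈ insert j T, x l := by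
        intro j T
        by_cases hj : j ∈ T
        · rw [Finset.insert_eq_of_mem hj, ← Finset.mul_prod_erase _ _ hj, ← mul_assoc, hx2]
        · rw [Finset.prod_insert hj]
      have hR : ∀ S ∈ (Finset.univ : Finset (Finset (Fin N))).filter (fun S => S.card ≤ E + 1),
          (∑ T ∈ (Finset.univ : Finset (Finset (Fin N))).filter (fun T => T.card ≤ E),
            ∑ j, if insert j T = S then a i j * c T else 0) * ∏ j ∈ S, x j =
          ∑ T ∈ (Finset.univ : Finset (Finset (Fin N))).filter (fun T => T.card ≤ E),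
            ∑ j, if insert j T = S then a i j * c T * ∏ l ∈ insert j T, x l else 0 := by
        intro S _
        rw [Finset.sum_mul]
        refine Finset.sum_congr rfl fun T _ => ?_
        rw [Finset.sum_mul]
        refine Finset.sum_congr rfl fun j _ => ?_
        split_ifs with h
        · rw [h]
        · rw [zero_mul]
      rw [Finset.sum_congr rfl hR, Finset.sum_comm]
      have hL : ∀ T ∈ (Finset.univ : Finset (Finset (Fin N))).filter (fun T => T.card ≤ E),
          ∑ S ∈ (Finset.univ : Finset (Finset (Fin N))).filter (fun S => S.card ≤ E + 1),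
            ∑ j, (if insert j T = S then a i j * c T * ∏ l ∈ insert j T, x l else 0) =
          ∑ j, a i j * c T * ∏ l ∈ insert j T, x l := by
        intro T hT
        rw [Finset.sum_comm]
        refine Finset.sum_congr rfl fun j _ => ?_
        rw [Finset.sum_ite_eq, if_pos]
        rw [Finset.mem_filter] at hT ⊢
        refine ⟨Finset.mem_univ _, (Finset.card_insert_le _ _).trans (by omega)⟩
      rw [Finset.sum_congr rfl hL, Finset.sum_comm]
      refine Finset.sum_congr rfl fun j _ => ?_
      rw [Finset.mul_sum]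
      refine Finset.sum_congr rfl fun T _ => ?_
      rw [← hprod]
      ring

theorem card_small (N D : ℕ) : ((Finset.univ : Finset (Finset (Fin N))).filter
    (fun S => S.card ≤ D)).card ≤ ∑ j ∈ Finset.range (D + 1), N.choose j := by
  classical
  have h1 : (Finset.univ : Finset (Finset (Fin N))).filter (fun S => S.card ≤ D) ⊆
      (Finset.range (D + 1)).biUnion (fun j => (Finset.univ : Finset (Fin N)).powersetCard j) := by
    intro S hS
    rw [Finset.mem_filter] at hS
    exact Finset.mem_biUnion.2 ⟨S.card, Finset.mem_range.2 (Nat.lt_succ_of_le hS.2),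
      Finset.mem_powersetCard.2 ⟨Finset.subset_univ _, rfl⟩⟩
  refine (Finset.card_le_card h1).trans (Finset.card_biUnion_le.trans
    (Finset.sum_le_sum fun j _ => ?_))
  rw [Finset.card_powersetCard, Finset.card_univ, Fintype.card_fin]

/-- Slice rank bound for a tensor given by `M` linear equations in three blocks of `N` variables. -/
theorem slice_bound (N M : ℕ) {B : Type} [Fintype B] [DecidableEq B] (X : B → Fin N → ZMod 2)
    (a : Fin 3 → Fin M → Fin N → ZMod 2)
    (h : ∀ x y z : B, (if x = y ∧ y = z then (1 : ZMod 2) else 0) =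
      ∏ i, (1 + ∑ j, a 0 i j * X x j + ∑ j, a 1 i j * X y j + ∑ j, a 2 i j * X z j)) :
    Fintype.card B ≤ 3 * ∑ j ∈ Finset.range (M / 3 + 1), N.choose j := by
  classical
  set D := M / 3 with hD
  let b : Fin 3 → ZMod 2 := ![1, 0, 0]
  let f : Fin 3 → Fin M → (Fin N → ZMod 2) → ZMod 2 := fun e i x => b e + ∑ j, a e i j * x j
  -- the small part of an assignment
  have hg : ∀ τ : Fin M → Fin 3, ∃ e : Fin 3, (Finset.univ.filter (fun i => τ i = e)).card ≤ D := by
    intro τ
    by_contra hno
    push Not at hno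
    have h1 := Finset.card_eq_sum_card_fiberwise (f := τ) (s := Finset.univ) (t := Finset.univ)
      (fun _ _ => Finset.mem_coe.2 (Finset.mem_univ _))
    rw [Finset.card_univ, Fintype.card_fin, Fin.sum_univ_three] at h1
    have := hno 0
    have := hno 1
    have := hno 2
    omega
  choose g hg using hg
  have hc : ∀ τ : Fin M → Fin 3, ∃ c : Finset (Fin N) → ZMod 2, ∀ x,
      ∏ i ∈ Finset.univ.filter (fun i => τ i = g τ), f (g τ) i x =
      ∑ S ∈ (Finset.univ : Finset (Finset (Fin N))).filter (fun S => S.card ≤ D),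
        c S * ∏ j ∈ S, x j := fun τ =>
    affine_prod N (f (g τ)) (a (g τ)) (fun _ => b (g τ)) (fun i x => rfl) _ D (hg τ)
  choose c hc using hc
  let P : Fin 3 → (Fin M → Fin 3) → (Fin N → ZMod 2) → ZMod 2 := fun e τ x =>
    ∏ i ∈ Finset.univ.filter (fun i => τ i = e), f e i x
  have hexp : ∀ x y z : B, (if x = y ∧ y = z then (1 : ZMod 2) else 0) =
      ∑ τ : Fin M → Fin 3, P 0 τ (X x) * P 1 τ (X y) * P 2 τ (X z) := by
    intro x y z
    rw [h x y z]
    let Y : Fin 3 → Fin N → ZMod 2 := ![X x, X y, X z]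
    have h1 : ∀ i : Fin M, (1 + ∑ j, a 0 i j * X x j + ∑ j, a 1 i j * X y j +
        ∑ j, a 2 i j * X z j) = ∑ e ∈ (Finset.univ : Finset (Fin 3)), f e i (Y e) := by
      intro i
      rw [Fin.sum_univ_three]
      simp [f, b, Y]
    rw [Finset.prod_congr rfl (fun i _ => h1 i), Finset.prod_univ_sum, Fintype.piFinset_univ]
    refine Finset.sum_congr rfl fun τ _ => ?_
    rw [← Finset.prod_fiberwise_of_maps_to (s := Finset.univ) (t := (Finset.univ : Finset (Fin 3)))
      (g := τ) (fun _ _ => Finset.mem_univ _), Fin.prod_univ_three]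
    have hP : ∀ e : Fin 3, ∏ i ∈ Finset.univ.filter (fun i => τ i = e), f (τ i) i (Y (τ i)) =
        P e τ (Y e) := by
      intro e
      refine Finset.prod_congr rfl fun i hi => ?_
      rw [(Finset.mem_filter.1 hi).2]
    rw [hP 0, hP 1, hP 2]
    rfl
  let 𝓘 : Finset (Finset (Fin N)) := (Finset.univ : Finset (Finset (Fin N))).filter
    (fun S => S.card ≤ D)
  have hI : Fintype.card 𝓘 ≤ ∑ j ∈ Finset.range (D + 1), N.choose j := by
    rw [Fintype.card_coe]; exact card_small N D
  have hPc : ∀ τ x, P (g τ) τ x = ∑ S ∈ 𝓘, c τ S * ∏ j ∈ S, x j := hc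
  have hIsum : ∀ F : Finset (Fin N) → ZMod 2, ∑ S : 𝓘, F S.1 = ∑ S ∈ 𝓘, F S := fun F =>
    Finset.sum_coe_sort 𝓘 F
  have hfin := Pool.Agent.Helper999.Sq3.slice_rank_diag (F := ZMod 2) (A := B) (I := 𝓘) (J := 𝓘)
    (L := 𝓘)
    (fun S x => ∏ j ∈ S.1, X x j)
    (fun S y z => ∑ τ ∈ Finset.univ.filter (fun τ => g τ = 0), c τ S.1 * (P 1 τ (X y) * P 2 τ (X z)))
    (fun S y => ∏ j ∈ S.1, X y j)
    (fun S x z => ∑ τ ∈ Finset.univ.filter (fun τ => g τ = 1), c τ S.1 * (P 0 τ (X x) * P 2 τ (X z)))
    (fun S z => ∏ j ∈ S.1, X z j)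
    (fun S x y => ∑ τ ∈ Finset.univ.filter (fun τ => g τ = 2), c τ S.1 * (P 0 τ (X x) * P 1 τ (X y)))
    (by
      intro x y z
      rw [hexp x y z, ← Finset.sum_fiberwise_of_maps_to (s := Finset.univ)
        (t := (Finset.univ : Finset (Fin 3))) (g := g) (fun _ _ => Finset.mem_univ _),
        Fin.sum_univ_three]
      congr 1
      · congr 1
        · rw [hIsum (fun S => (∏ j ∈ S, X x j) * ∑ τ ∈ Finset.univ.filter (fun τ => g τ = 0),
            c τ S * (P 1 τ (X y) * P 2 τ (X z)))]
          simp only [Finset.mul_sum]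
          rw [Finset.sum_comm]
          refine Finset.sum_congr rfl fun τ hτ => ?_
          have h0 : g τ = 0 := (Finset.mem_filter.1 hτ).2
          have h2 := hPc τ (X x)
          rw [h0] at h2
          rw [h2, Finset.sum_mul, Finset.sum_mul]
          refine Finset.sum_congr rfl fun S _ => ?_
          ring
        · rw [hIsum (fun S => (∏ j ∈ S, X y j) * ∑ τ ∈ Finset.univ.filter (fun τ => g τ = 1),
            c τ S * (P 0 τ (X x) * P 2 τ (X z)))]
          simp only [Finset.mul_sum]
          rw [Finset.sum_comm]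
          refine Finset.sum_congr rfl fun τ hτ => ?_
          have h0 : g τ = 1 := (Finset.mem_filter.1 hτ).2
          have h2 := hPc τ (X y)
          rw [h0] at h2
          rw [h2, Finset.mul_sum, Finset.sum_mul]
          refine Finset.sum_congr rfl fun S _ => ?_
          ring
      · rw [hIsum (fun S => (∏ j ∈ S, X z j) * ∑ τ ∈ Finset.univ.filter (fun τ => g τ = 2),
            c τ S * (P 0 τ (X x) * P 1 τ (X y)))]
        simp only [Finset.mul_sum]
        rw [Finset.sum_comm]
        refine Finset.sum_congr rfl fun τ hτ => ?_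
        have h0 : g τ = 2 := (Finset.mem_filter.1 hτ).2
        have h2 := hPc τ (X z)
        rw [h0] at h2
        rw [h2, Finset.mul_sum]
        refine Finset.sum_congr rfl fun S _ => ?_
        ring)
  omega

/-- `∑_{j ≤ D} C(N, j) ≤ 2 ^ N exp(-2 δ² / N)` if `D + δ ≤ N / 2`. -/
theorem chernoff (N D : ℕ) (δ : ℝ) (hδ : 0 ≤ δ) (hN : 0 < N) (h : (D : ℝ) + δ ≤ N / 2) :
    ((∑ j ∈ Finset.range (D + 1), N.choose j : ℕ) : ℝ) ≤ 2 ^ N * Real.exp (-(2 * δ ^ 2 / N)) := by
  have hNr : (0 : ℝ) < N := by exact_mod_cast hN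
  set lam : ℝ := 4 * δ / N with hlam
  have hlam0 : 0 ≤ lam := by positivity
  have h1 : ((∑ j ∈ Finset.range (D + 1), N.choose j : ℕ) : ℝ) ≤
      Real.exp (lam * D) * (Real.exp (-lam) + 1) ^ N := by
    rw [Nat.cast_sum, add_pow, Finset.mul_sum]
    have hsub : ∑ j ∈ Finset.range (D + 1), ((N.choose j : ℕ) : ℝ) ≤
        ∑ j ∈ Finset.range (D + 1), Real.exp (lam * D) *
          (Real.exp (-lam) ^ j * 1 ^ (N - j) * (N.choose j : ℝ)) := by
      refine Finset.sum_le_sum fun j hj => ?_
      have hj' : j ≤ D := Nat.lt_succ_iff.1 (Finset.mem_range.1 hj)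
      have hjr : (j : ℝ) ≤ D := by exact_mod_cast hj'
      have h3 : 1 ≤ Real.exp (lam * D) * Real.exp (-lam) ^ j := by
        rw [← Real.exp_nat_mul, ← Real.exp_add]
        apply Real.one_le_exp
        nlinarith
      calc ((N.choose j : ℕ) : ℝ) = 1 * (N.choose j : ℝ) := by rw [one_mul]
        _ ≤ (Real.exp (lam * D) * Real.exp (-lam) ^ j) * (N.choose j : ℝ) :=
            mul_le_mul_of_nonneg_right h3 (Nat.cast_nonneg _)
        _ = _ := by rw [one_pow]; ring
    refine hsub.trans ?_
    refine Finset.sum_le_sum_of_subset_of_nonneg (Finset.range_subset_range.2 ?_)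
      fun i _ _ => by positivity
    have : (D : ℝ) ≤ N := by linarith
    have : D ≤ N := by exact_mod_cast this
    omega
  have h2 : Real.exp (-lam) + 1 = 2 * Real.exp (-(lam / 2)) * Real.cosh (lam / 2) := by
    rw [Real.cosh_eq, show -lam = -(lam / 2) + -(lam / 2) by ring, Real.exp_add]
    have : Real.exp (-(lam / 2)) * Real.exp (lam / 2) = 1 := by
      rw [← Real.exp_add]; simp
    nlinarith [this]
  have h3 : Real.cosh (lam / 2) ≤ Real.exp ((lam / 2) ^ 2 / 2) := Real.cosh_le_exp_half_sq _
  calc ((∑ j ∈ Finset.range (D + 1), N.choose j : ℕ) : ℝ)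
      ≤ Real.exp (lam * D) * (Real.exp (-lam) + 1) ^ N := h1
    _ ≤ Real.exp (lam * D) * (2 * Real.exp (-(lam / 2)) * Real.exp ((lam / 2) ^ 2 / 2)) ^ N := by
        rw [h2]
        refine mul_le_mul_of_nonneg_left ?_ (Real.exp_pos _).le
        refine pow_le_pow_left₀ (by positivity) ?_ N
        exact mul_le_mul_of_nonneg_left h3 (by positivity)
    _ = 2 ^ N * Real.exp (lam * D + N * (-(lam / 2) + (lam / 2) ^ 2 / 2)) := by
        rw [mul_assoc, ← Real.exp_add, mul_pow, ← Real.exp_nat_mul, Real.exp_add]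
        ring
    _ ≤ 2 ^ N * Real.exp (-(2 * δ ^ 2 / N)) := by
        refine mul_le_mul_of_nonneg_left (Real.exp_le_exp.2 ?_) (by positivity)
        have e1 : lam * D ≤ lam * (N / 2 - δ) := mul_le_mul_of_nonneg_left (by linarith) hlam0
        have e2 : lam * (N / 2 - δ) + N * (-(lam / 2) + (lam / 2) ^ 2 / 2) = -(2 * δ ^ 2 / N) := by
          rw [hlam]; field_simp; ring
        linarith

end Pool.Agent.H161R3.Corner
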