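import Pool.Agent.H161R3.Corner
set_option autoImplicit false

namespace Pool.Agent.H161R3.Corner

open Finset Module

abbrev V (n : ℕ) := Fin n → ZMod 2

theorem lin_coord {N : ℕ} {Q : Type} [AddCommGroup Q] [Module (ZMod 2) Q]
    (φ : Q ≃ₗ[ZMod 2] (Fin N → ZMod 2)) (f : Q →ₗ[ZMod 2] ZMod 2) (q : Q) :
    f q = ∑ j, f (φ.symm (Pi.single j 1)) * φ q j := by
  have h1 : q = ∑ j, φ q j • φ.symm (Pi.single j 1) := by
    apply φ.injective
    rw [map_sum]
    simp only [map_smul, LinearEquiv.apply_symm_apply]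
    funext i
    simp [Finset.sum_apply, Pi.single_apply]
  conv_lhs => rw [h1]
  rw [map_sum]
  refine Finset.sum_congr rfl fun j _ => ?_
  rw [map_smul, smul_eq_mul, mul_comm]

theorem main_count (n : ℕ) (W : Submodule (ZMod 2) (V n × V n)) (B : Finset ((V n × V n) ⧸ W))
    (hB : ∀ x y z : V n, W.mkQ (x, y) ∈ B → W.mkQ (x, y + z) ∈ B → W.mkQ (x + z, y) ∈ B → z = 0) :
    (B.Nonempty → 2 * finrank (ZMod 2) W ≤ 3 * n) ∧
    B.card ≤ 3 * ∑ j ∈ Finset.range ((3 * n - 2 * finrank (ZMod 2) W) / 3 + 1),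
      (2 * n - finrank (ZMod 2) W).choose j := by
  classical
  rcases B.eq_empty_or_nonempty with rfl | ⟨q0, hq0⟩
  · simp
  set w := finrank (ZMod 2) W with hw
  have hN : finrank (ZMod 2) ((V n × V n) ⧸ W) = 2 * n - w := by
    have h1 := Submodule.finrank_quotient_add_finrank W
    rw [finrank_prod, finrank_fin_fun] at h1
    omega
  have hwle : w ≤ 2 * n := by
    have h1 := Submodule.finrank_le W
    rw [finrank_prod, finrank_fin_fun] at h1
    omega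
  have hinj : ∀ z : V n, ((0 : V n), z) ∈ W → (z, (0 : V n)) ∈ W → z = 0 := by
    intro z h1 h2
    obtain ⟨⟨x, y⟩, hxy⟩ := Submodule.mkQ_surjective W q0
    have e1 : W.mkQ (x, y + z) = q0 := by
      rw [← hxy, ← sub_eq_zero, ← map_sub]
      change W.mkQ ((x, y + z) - (x, y)) = 0
      rw [Submodule.mkQ_apply, Submodule.Quotient.mk_eq_zero]
      simpa using h1
    have e2 : W.mkQ (x + z, y) = q0 := by
      rw [← hxy, ← sub_eq_zero, ← map_sub]
      change W.mkQ ((x + z, y) - (x, y)) = 0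
      rw [Submodule.mkQ_apply, Submodule.Quotient.mk_eq_zero]
      simpa using h2
    exact hB x y z (hxy ▸ hq0) (e1 ▸ hq0) (e2 ▸ hq0)
  -- the map onto the corners of the quotient
  let Λ : (V n × V n × V n) →ₗ[ZMod 2] (((V n × V n) ⧸ W) × ((V n × V n) ⧸ W) × ((V n × V n) ⧸ W)) :=
    LinearMap.prod (W.mkQ ∘ₗ LinearMap.prod (LinearMap.fst _ _ _)
        (LinearMap.fst _ _ _ ∘ₗ LinearMap.snd _ _ _))
      (LinearMap.prod (W.mkQ ∘ₗ LinearMap.prod (LinearMap.fst _ _ _)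
        (LinearMap.fst _ _ _ ∘ₗ LinearMap.snd _ _ _ + LinearMap.snd _ _ _ ∘ₗ LinearMap.snd _ _ _))
      (W.mkQ ∘ₗ LinearMap.prod (LinearMap.fst _ _ _ + LinearMap.snd _ _ _ ∘ₗ LinearMap.snd _ _ _)
        (LinearMap.fst _ _ _ ∘ₗ LinearMap.snd _ _ _)))
  have hΛ : ∀ x y z, Λ (x, y, z) = (W.mkQ (x, y), W.mkQ (x, y + z), W.mkQ (x + z, y)) := by
    intro x y z; rfl
  have hker : finrank (ZMod 2) (LinearMap.ker Λ) ≤ w := by
    let g : LinearMap.ker Λ →ₗ[ZMod 2] W := LinearMap.codRestrict W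
      ((LinearMap.prod (LinearMap.fst _ _ _) (LinearMap.fst _ _ _ ∘ₗ LinearMap.snd _ _ _)) ∘ₗ
        (LinearMap.ker Λ).subtype) (by
        rintro ⟨⟨x, y, z⟩, h⟩
        rw [LinearMap.mem_ker, hΛ, Prod.mk_eq_zero] at h
        have := h.1
        rw [Submodule.mkQ_apply, Submodule.Quotient.mk_eq_zero] at this
        exact this)
    refine LinearMap.finrank_le_finrank_of_injective (f := g) ?_
    rw [← LinearMap.ker_eq_bot, LinearMap.ker_eq_bot']
    rintro ⟨⟨x, y, z⟩, h⟩ hg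
    have h1 : ((x, y) : V n × V n) = 0 := congrArg Subtype.val hg
    rw [Prod.mk_eq_zero] at h1
    obtain ⟨rfl, rfl⟩ := h1
    rw [LinearMap.mem_ker, hΛ, Prod.mk_eq_zero, Prod.mk_eq_zero] at h
    have h2 := h.2.1
    have h3 := h.2.2
    rw [Submodule.mkQ_apply, Submodule.Quotient.mk_eq_zero, zero_add] at h2 h3
    have : z = 0 := hinj z h2 h3
    subst this
    rfl
  set R := LinearMap.range Λ with hR
  have hrange := LinearMap.finrank_range_add_finrank_ker Λ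
  rw [finrank_prod, finrank_prod, finrank_fin_fun] at hrange
  have hquot := Submodule.finrank_quotient_add_finrank R
  rw [finrank_prod, finrank_prod, hN] at hquot
  set M := finrank (ZMod 2) ((((V n × V n) ⧸ W) × ((V n × V n) ⧸ W) × ((V n × V n) ⧸ W)) ⧸ R) with hM
  have hMle : M ≤ 3 * n - 2 * w := by
    have : finrank (ZMod 2) R = finrank (ZMod 2) (LinearMap.range Λ) := rfl
    omega
  have hwn : 2 * w ≤ 3 * n := by
    have : finrank (ZMod 2) R = finrank (ZMod 2) (LinearMap.range Λ) := rfl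
    omega
  let ε : ((((V n × V n) ⧸ W) × ((V n × V n) ⧸ W) × ((V n × V n) ⧸ W)) ⧸ R) ≃ₗ[ZMod 2] (Fin M → ZMod 2) :=
    (finBasis (ZMod 2) ((((V n × V n) ⧸ W) × ((V n × V n) ⧸ W) × ((V n × V n) ⧸ W)) ⧸ R)).equivFun
  let φ : ((V n × V n) ⧸ W) ≃ₗ[ZMod 2] (Fin (finrank (ZMod 2) ((V n × V n) ⧸ W)) → ZMod 2) := (finBasis (ZMod 2) ((V n × V n) ⧸ W)).equivFun
  let ψ : Fin M → (((V n × V n) ⧸ W) × ((V n × V n) ⧸ W) × ((V n × V n) ⧸ W)) →ₗ[ZMod 2] ZMod 2 := fun i =>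
    LinearMap.proj i ∘ₗ ε.toLinearMap ∘ₗ R.mkQ
  have hψ : ∀ q : ((V n × V n) ⧸ W) × ((V n × V n) ⧸ W) × ((V n × V n) ⧸ W), (∀ i, ψ i q = 0) ↔ q ∈ R := by
    intro q
    constructor
    · intro h
      have h1 : ε (R.mkQ q) = 0 := funext h
      rw [LinearEquiv.map_eq_zero_iff, Submodule.mkQ_apply, Submodule.Quotient.mk_eq_zero] at h1
      exact h1
    · intro h i
      have h1 : R.mkQ q = 0 := by
        rw [Submodule.mkQ_apply, Submodule.Quotient.mk_eq_zero]; exact h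
      change (ε (R.mkQ q)) i = 0
      rw [h1, map_zero]
      rfl
  let ι : Fin 3 → ((V n × V n) ⧸ W) →ₗ[ZMod 2] (((V n × V n) ⧸ W) × ((V n × V n) ⧸ W) × ((V n × V n) ⧸ W)) := ![LinearMap.inl _ _ _,
    LinearMap.inr _ _ _ ∘ₗ LinearMap.inl _ _ _, LinearMap.inr _ _ _ ∘ₗ LinearMap.inr _ _ _]
  let a : Fin 3 → Fin M → Fin (finrank (ZMod 2) ((V n × V n) ⧸ W)) → ZMod 2 := fun e i j =>
    (ψ i ∘ₗ ι e) (φ.symm (Pi.single j 1))
  have hdecomp : ∀ (i : Fin M) (x y z : ((V n × V n) ⧸ W)), ψ i (x, y, z) =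
      ∑ j, a 0 i j * φ x j + ∑ j, a 1 i j * φ y j + ∑ j, a 2 i j * φ z j := by
    intro i x y z
    have h1 : ((x, y, z) : ((V n × V n) ⧸ W) × ((V n × V n) ⧸ W) × ((V n × V n) ⧸ W)) = ι 0 x + ι 1 y + ι 2 z := by
      simp [ι]
    rw [h1, map_add, map_add]
    have h2 := fun e q => lin_coord φ (ψ i ∘ₗ ι e) q
    rw [show ψ i (ι 0 x) = (ψ i ∘ₗ ι 0) x from rfl, show ψ i (ι 1 y) = (ψ i ∘ₗ ι 1) y from rfl,
      show ψ i (ι 2 z) = (ψ i ∘ₗ ι 2) z from rfl, h2, h2, h2]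
  have hfin := slice_bound (finrank (ZMod 2) ((V n × V n) ⧸ W)) M (B := B) (fun b => φ b.1) a (by
    intro x y z
    have hprod : ∏ i, (1 + ∑ j, a 0 i j * φ x.1 j + ∑ j, a 1 i j * φ y.1 j +
        ∑ j, a 2 i j * φ z.1 j) = ∏ i, (1 + ψ i (x.1, y.1, z.1)) := by
      refine Finset.prod_congr rfl fun i _ => ?_
      rw [hdecomp]
      ring
    rw [hprod]
    by_cases hmem : ((x.1, y.1, z.1) : ((V n × V n) ⧸ W) × ((V n × V n) ⧸ W) × ((V n × V n) ⧸ W)) ∈ R
    · have h1 : ∀ i, ψ i (x.1, y.1, z.1) = 0 := (hψ _).2 hmem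
      rw [Finset.prod_congr rfl (fun i _ => by rw [h1 i, add_zero]), Finset.prod_const_one]
      obtain ⟨⟨p, q, r⟩, hpq⟩ := hmem
      rw [hΛ] at hpq
      have e1 := congrArg Prod.fst hpq
      have e2 := congrArg (fun t => t.2.1) hpq
      have e3 := congrArg (fun t => t.2.2) hpq
      simp only at e1 e2 e3
      have hr : r = 0 := hB p q r (e1 ▸ x.2) (e2 ▸ y.2) (e3 ▸ z.2)
      subst hr
      rw [add_zero] at e2 e3
      rw [if_pos]
      exact ⟨Subtype.ext (e1.symm.trans e2), Subtype.ext (e2.symm.trans e3)⟩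
    · have h1 : ∃ i, ψ i (x.1, y.1, z.1) ≠ 0 := by
        by_contra hno
        push Not at hno
        exact hmem ((hψ _).1 hno)
      obtain ⟨i, hi⟩ := h1
      have hi1 : 1 + ψ i (x.1, y.1, z.1) = 0 := by
        have : ∀ t : ZMod 2, t ≠ 0 → 1 + t = 0 := by decide
        exact this _ hi
      rw [Finset.prod_eq_zero (Finset.mem_univ i) hi1, if_neg]
      rintro ⟨rfl, rfl⟩
      apply hmem
      obtain ⟨⟨p, q⟩, hpq⟩ := Submodule.mkQ_surjective W x.1
      refine ⟨(p, q, 0), ?_⟩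
      rw [hΛ, add_zero, add_zero, hpq])
  rw [Fintype.card_coe, hN] at hfin
  refine ⟨fun _ => hwn, hfin.trans (Nat.mul_le_mul_left _ (Finset.sum_le_sum_of_subset ?_))⟩
  refine Finset.range_subset_range.2 ?_
  have := Nat.div_le_div_right (c := 3) hMle
  omega

end Pool.Agent.H161R3.Corner
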