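import Mathlib
set_option autoImplicit false

namespace Pool.Agent.H161R3

open MvPolynomial Finset

/-- substitution of polynomials of degree `≤ 1` does not raise the total degree -/
theorem totalDegree_bind₁_le {σ τ R : Type} [CommRing R] (f : σ → MvPolynomial τ R)
    (hf : ∀ i, (f i).totalDegree ≤ 1) (P : MvPolynomial σ R) :
    (bind₁ f P).totalDegree ≤ P.totalDegree := by
  classical
  have h : bind₁ f P = ∑ d ∈ P.support, C (P.coeff d) * ∏ i ∈ d.support, f i ^ d i := by
    rw [bind₁, aeval_def, eval₂_eq]
    rfl
  rw [h]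
  refine totalDegree_finsetSum_le fun d hd => ?_
  refine (totalDegree_mul _ _).trans ?_
  rw [totalDegree_C, zero_add]
  refine (totalDegree_finsetProd _ _).trans ?_
  refine le_trans ?_ (le_totalDegree hd)
  rw [Finsupp.sum]
  refine Finset.sum_le_sum fun i _ => ?_
  refine (totalDegree_pow _ _).trans ?_
  calc d i * (f i).totalDegree ≤ d i * 1 := Nat.mul_le_mul_left _ (hf i)
    _ = d i := mul_one _

/-- the integer with given base-`p` digits -/
def num (p m : ℕ) (x : Fin m → ZMod p) : ℕ := ∑ j : Fin m, (x j).val * p ^ (j : ℕ)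

theorem num_eq (p m : ℕ) [NeZero p] (x : Fin m → ZMod p) :
    num p m x = (finFunctionFinEquiv (m := p) (n := m) (fun j => ⟨(x j).val, ZMod.val_lt _⟩) : ℕ) :=
  rfl

theorem num_lt (p m : ℕ) [NeZero p] (x : Fin m → ZMod p) : num p m x < p ^ m := by
  rw [num_eq]; exact Fin.is_lt _

theorem num_digit (p m : ℕ) [NeZero p] (x : Fin m → ZMod p) (j : Fin m) :
    num p m x / p ^ (j : ℕ) % p = (x j).val := by
  have h := congrFun (finFunctionFinEquiv (m := p) (n := m)
    |>.symm_apply_apply (fun j => ⟨(x j).val, ZMod.val_lt _⟩)) j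
  have h2 := congrArg Fin.val h
  rw [num_eq]
  exact h2

theorem num_add_lt (p m : ℕ) [NeZero p] (x w : Fin m → ZMod p)
    (hd : ∀ j, x j = 0 ∨ w j = 0) (hw : w ≠ 0) : num p m x < num p m (x + w) := by
  have h1 : num p m (x + w) = num p m x + num p m w := by
    unfold num
    rw [← Finset.sum_add_distrib]
    refine Finset.sum_congr rfl fun j _ => ?_
    rcases hd j with h | h
    · simp [h]
    · simp [h]
  have h2 : 0 < num p m w := by
    obtain ⟨j, hj⟩ := Function.ne_iff.1 hw
    unfold num
    refine Finset.sum_pos' (fun _ _ => Nat.zero_le _) ⟨j, Finset.mem_univ _, ?_⟩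
    refine Nat.mul_pos ?_ (pow_pos (Nat.pos_of_ne_zero (NeZero.ne p)) _)
    rw [Nat.pos_iff_ne_zero]
    intro h0
    exact hj ((ZMod.val_eq_zero _).1 h0)
  omega

/-- One step of the greedy construction (Chevalley–Warning). -/
theorem step (p : ℕ) [Fact p.Prime] (q k m s D t : ℕ) (P : Fin s → MvPolynomial (Fin (q + 1) × Fin m) (ZMod p))
    (hP : ∀ l, (P l).totalDegree ≤ D) (γ : Fin s → ZMod p)
    (htk : t + 1 < k) (hm : (t + 1) * (s * D * k ^ q + 1) ≤ m)
    (v : ℕ → Fin m → ZMod p)
    (hv : ∀ i : Fin (q + 1) → ℕ, Monotone i → (∀ a, i a ≤ t) → ∀ l,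
      eval (fun z => v (i z.1) z.2) (P l) = γ l) :
    ∃ w : Fin m → ZMod p, w ≠ 0 ∧ (∀ j : Fin m, (j : ℕ) / (s * D * k ^ q + 1) ≠ t → w j = 0) ∧
      ∀ i : Fin (q + 1) → ℕ, Monotone i → (∀ a, i a ≤ t + 1) → ∀ l,
        eval (fun z => (Function.update v (t + 1) (v t + w)) (i z.1) z.2) (P l) = γ l := by
  classical
  set L := s * D * k ^ q + 1 with hL
  have hLpos : 0 < L := by omega
  -- embedding of a block
  let emb : (Fin L → ZMod p) → Fin m → ZMod p := fun w j =>
    if (j : ℕ) / L = t then w ⟨(j : ℕ) % L, Nat.mod_lt _ hLpos⟩ else 0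
  let V : (Fin L → ZMod p) → ℕ → Fin m → ZMod p := fun w => Function.update v (t + 1) (v t + emb w)
  let tup : (Fin q → Fin k) → Fin (q + 1) → ℕ := fun e => Fin.snoc (α := fun _ => ℕ)
    (fun a => (e a : ℕ)) (t + 1)
  let sub : (Fin q → Fin k) → Fin (q + 1) × Fin m → MvPolynomial (Fin L) (ZMod p) := fun e z =>
    if tup e z.1 = t + 1 then C (v t z.2) +
      (if (z.2 : ℕ) / L = t then X ⟨(z.2 : ℕ) % L, Nat.mod_lt _ hLpos⟩ else 0)
    else C (v (tup e z.1) z.2)
  let F : Fin s × (Fin q → Fin k) → MvPolynomial (Fin L) (ZMod p) := fun le =>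
    if Monotone (tup le.2) ∧ ∀ a, tup le.2 a ≤ t + 1 then bind₁ (sub le.2) (P le.1) - C (γ le.1)
    else 0
  have hsub : ∀ e z, (sub e z).totalDegree ≤ 1 := by
    intro e z
    simp only [sub]
    split_ifs
    · refine (totalDegree_add _ _).trans ?_
      rw [totalDegree_C, totalDegree_X]
      simp
    · simp
    · simp
  have hFdeg : ∀ le, (F le).totalDegree ≤ D := by
    intro le
    simp only [F]
    split_ifs
    · refine (totalDegree_sub _ _).trans ?_
      rw [totalDegree_C]
      refine max_le ((totalDegree_bind₁_le _ (hsub _) _).trans (hP _)) (Nat.zero_le _)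
    · simp
  have hsum : (∑ le, (F le).totalDegree) < Fintype.card (Fin L) := by
    calc (∑ le, (F le).totalDegree) ≤ ∑ _le : Fin s × (Fin q → Fin k), D :=
          Finset.sum_le_sum fun le _ => hFdeg le
      _ = s * k ^ q * D := by
          simp [Finset.sum_const, Finset.card_univ]
      _ < Fintype.card (Fin L) := by
          rw [Fintype.card_fin, hL]
          have : s * k ^ q * D = s * D * k ^ q := by ring
          omega
  have hdvd := char_dvd_card_solutions_of_fintype_sum_lt (K := ZMod p) p hsum
  -- evaluation of the substituted polynomials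
  have heval : ∀ w e l, eval w (bind₁ (sub e) (P l)) =
      eval (fun z => V w (tup e z.1) z.2) (P l) := by
    intro w e l
    have h1 := eval₂Hom_bind₁ (RingHom.id (ZMod p)) w (sub e) (P l)
    have h2 : (fun z => (eval₂Hom (RingHom.id (ZMod p)) w) (sub e z)) =
        fun z => V w (tup e z.1) z.2 := by
      funext z
      change eval w (sub e z) = _
      simp only [sub, V]
      by_cases hz : tup e z.1 = t + 1
      · rw [if_pos hz, hz, Function.update_self, map_add, eval_C, Pi.add_apply]
        congr 1
        simp only [emb]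
        split_ifs
        · rw [eval_X]
        · rw [map_zero]
      · rw [if_neg hz, eval_C, Function.update_of_ne hz]
    rw [h2] at h1
    exact h1
  have hzero : ∀ le, eval 0 (F le) = 0 := by
    intro le
    simp only [F]
    split_ifs with hc
    · rw [map_sub, eval_C, heval, sub_eq_zero]
      have hV : (fun z : Fin (q + 1) × Fin m => V 0 (tup le.2 z.1) z.2) =
          fun z => v ((fun a => min (tup le.2 a) t) z.1) z.2 := by
        funext z
        simp only [V]
        have he0 : emb 0 = 0 := by
          funext j; simp [emb]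
        rw [he0, add_zero]
        by_cases hz : tup le.2 z.1 = t + 1
        · rw [hz, Function.update_self]
          congr 2
          omega
        · rw [Function.update_of_ne hz]
          have := hc.2 z.1
          congr 2
          omega
      rw [hV]
      refine hv _ (fun a b hab => ?_) (fun a => min_le_right _ _) _
      exact min_le_min_right _ (hc.1 hab)
    · rw [map_zero]
  have hex : ∃ w : Fin L → ZMod p, w ≠ 0 ∧ ∀ le, eval w (F le) = 0 := by
    by_contra hno
    push Not at hno
    have : Fintype.card { x : Fin L → ZMod p // ∀ i, eval x (F i) = 0 } = 1 := by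
      rw [Fintype.card_eq_one_iff]
      refine ⟨⟨0, hzero⟩, fun y => Subtype.ext ?_⟩
      by_contra hy
      obtain ⟨le, hle⟩ := hno y.1 hy
      exact hle (y.2 le)
    rw [this] at hdvd
    have := (Fact.out : p.Prime).one_lt
    have := Nat.le_of_dvd one_pos hdvd
    omega
  obtain ⟨w, hw0, hw⟩ := hex
  refine ⟨emb w, ?_, ?_, ?_⟩
  · obtain ⟨i, hi⟩ := Function.ne_iff.1 hw0
    have hlt : t * L + (i : ℕ) < m := by
      have := i.2
      calc t * L + (i : ℕ) < t * L + L := by omega
        _ = (t + 1) * L := by ring
        _ ≤ m := hm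
    refine Function.ne_iff.2 ⟨⟨t * L + i, hlt⟩, ?_⟩
    have h1 : (t * L + (i : ℕ)) / L = t := by
      rw [Nat.add_comm, Nat.add_mul_div_right _ _ hLpos, Nat.div_eq_of_lt i.2, zero_add]
    have h2 : (t * L + (i : ℕ)) % L = i := by
      rw [Nat.add_comm, Nat.add_mul_mod_self_right, Nat.mod_eq_of_lt i.2]
    simp only [emb, h1, if_true, h2]
    simpa using hi
  · intro j hj
    simp only [emb, if_neg hj]
  · intro i hi hit l
    by_cases hlast : i (Fin.last q) = t + 1
    · let e : Fin q → Fin k := fun a => ⟨i a.castSucc, lt_of_le_of_lt (hit _) htk⟩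
      have htup : tup e = i := by
        funext a
        refine Fin.lastCases ?_ (fun b => ?_) a
        · simp only [tup, Fin.snoc_last, hlast]
        · simp only [tup, Fin.snoc_castSucc, e]
      have h1 := hw (l, e)
      simp only [F] at h1
      rw [htup, if_pos ⟨hi, hit⟩, map_sub, eval_C, heval, htup, sub_eq_zero] at h1
      exact h1
    · have hall : ∀ a, i a ≤ t := by
        intro a
        have h1 : i a ≤ i (Fin.last q) := hi (Fin.le_last a)
        have h2 := hit (Fin.last q)
        omega
      have h3 : (fun z : Fin (q + 1) × Fin m => Function.update v (t + 1) (v t + emb w) (i z.1) z.2)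
          = fun z => v (i z.1) z.2 := by
        funext z
        have := hall z.1
        rw [Function.update_of_ne (by omega)]
      rw [h3]
      exact hv i hi hall l

/-- The greedy chain. -/
theorem chain (p : ℕ) [Fact p.Prime] (q k m s D : ℕ)
    (P : Fin s → MvPolynomial (Fin (q + 1) × Fin m) (ZMod p))
    (hP : ∀ l, (P l).totalDegree ≤ D) (hm : k * (s * D * k ^ q + 1) ≤ m) (t : ℕ) (ht : t < k) :
    ∃ v : ℕ → Fin m → ZMod p,
      (∀ a ≤ t, ∀ j : Fin m, a ≤ (j : ℕ) / (s * D * k ^ q + 1) → v a j = 0) ∧
      (∀ a < t, num p m (v a) < num p m (v (a + 1))) ∧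
      (∀ i : Fin (q + 1) → ℕ, Monotone i → (∀ a, i a ≤ t) → ∀ l,
        eval (fun z => v (i z.1) z.2) (P l) = eval (fun _ => 0) (P l)) := by
  induction t with
  | zero =>
    refine ⟨fun _ => 0, fun _ _ _ _ => rfl, fun a ha => absurd ha (Nat.not_lt_zero _),
      fun i _ _ l => rfl⟩
  | succ t ih =>
    obtain ⟨v, h1, h2, h3⟩ := ih (by omega)
    have hm' : (t + 1) * (s * D * k ^ q + 1) ≤ m :=
      le_trans (Nat.mul_le_mul_right _ (by omega)) hm
    obtain ⟨w, hw0, hwb, hw⟩ := step p q k m s D t P hP _ ht hm' v h3
    refine ⟨Function.update v (t + 1) (v t + w), ?_, ?_, hw⟩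
    · intro a ha j hj
      rcases Nat.lt_or_ge a (t + 1) with hlt | hge
      · rw [Function.update_of_ne (by omega)]
        exact h1 a (by omega) j hj
      · have : a = t + 1 := by omega
        subst this
        rw [Function.update_self, Pi.add_apply, h1 t le_rfl j (by omega), hwb j (by omega), add_zero]
    · intro a ha
      rcases Nat.lt_or_ge a t with hlt | hge
      · rw [Function.update_of_ne (by omega), Function.update_of_ne (by omega)]
        exact h2 a hlt
      · have : a = t := by omega
        subst this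
        rw [Function.update_self, Function.update_of_ne (by omega)]
        refine num_add_lt p m _ _ (fun j => ?_) hw0
        by_cases hj : (j : ℕ) / (s * D * k ^ q + 1) = a
        · exact Or.inl (h1 a le_rfl j (by omega))
        · exact Or.inr (hwb j hj)

/-- Colourings of the `r`-subsets of `{0, …, p ^ m - 1}` that are determined by `s` polynomials of
degree at most `D` over `F_p` in the base-`p` digits have homogeneous sets of size `k` as soon as
`s * D * k ^ r + k ≤ m`. -/
theorem upper (p : ℕ) [Fact p.Prime] (r k m s D : ℕ) (hr : 1 ≤ r)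
    (hm : s * D * k ^ r + k ≤ m) (κ : Type) (c : Finset ℕ → κ)
    (P : Fin s → MvPolynomial (Fin r × Fin m) (ZMod p)) (g : (Fin s → ZMod p) → κ)
    (hP : ∀ l, (P l).totalDegree ≤ D)
    (hc : ∀ v : Fin r → ℕ, StrictMono v → (∀ i, v i < p ^ m) →
      c (Finset.univ.image v) =
        g (fun l => eval (fun z => ((v z.1 / p ^ (z.2 : ℕ) % p : ℕ) : ZMod p)) (P l))) :
    ∃ S ⊆ Finset.range (p ^ m), S.card = k ∧
      ∀ A ⊆ S, ∀ B ⊆ S, A.card = r → B.card = r → c A = c B := by
  classical
  obtain ⟨q, rfl⟩ : ∃ q, r = q + 1 := ⟨r - 1, by omega⟩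
  rcases Nat.eq_zero_or_pos k with rfl | hk
  · refine ⟨∅, by simp, by simp, fun A hA B hB hA1 _ => ?_⟩
    rw [Finset.subset_empty] at hA
    rw [hA] at hA1
    simp at hA1
  have hm' : k * (s * D * k ^ q + 1) ≤ m := by
    refine le_trans (le_of_eq ?_) hm
    ring
  obtain ⟨v, -, h2, h3⟩ := chain p q k m s D P hP hm' (k - 1) (by omega)
  have hmono : ∀ a b, a < b → b < k → num p m (v a) < num p m (v b) := by
    intro a b hab
    induction b with
    | zero => exact absurd hab (Nat.not_lt_zero _)
    | succ b ih =>
      intro hb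
      rcases Nat.lt_or_ge a b with h | h
      · exact (ih h (by omega)).trans (h2 b (by omega))
      · have : a = b := by omega
        subst this
        exact h2 a (by omega)
  have hinj : Set.InjOn (fun a => num p m (v a)) (Finset.range k : Set ℕ) := by
    intro a ha b hb hab
    simp only [Finset.coe_range, Set.mem_Iio] at ha hb
    rcases lt_trichotomy a b with h | h | h
    · exact absurd hab (hmono a b h hb).ne
    · exact h
    · exact absurd hab.symm (hmono b a h ha).ne
  refine ⟨(Finset.range k).image (fun a => num p m (v a)), ?_, ?_, ?_⟩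
  · intro x hx
    obtain ⟨a, -, rfl⟩ := Finset.mem_image.1 hx
    exact Finset.mem_range.2 (num_lt p m _)
  · rw [Finset.card_image_of_injOn hinj, Finset.card_range]
  · have key : ∀ A ⊆ (Finset.range k).image (fun a => num p m (v a)), A.card = q + 1 →
        c A = g (fun l => eval (fun _ => 0) (P l)) := by
      intro A hA hcard
      have hmem : ∀ a : Fin (q + 1), ∃ b, b < k ∧ num p m (v b) = A.orderEmbOfFin hcard a := by
        intro a
        obtain ⟨b, hb, hb2⟩ := Finset.mem_image.1 (hA (A.orderEmbOfFin_mem hcard a))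
        exact ⟨b, Finset.mem_range.1 hb, hb2⟩
      choose i hik hi using hmem
      have himono : Monotone i := by
        intro a b hab
        by_contra hlt
        push Not at hlt
        have h4 := hmono _ _ hlt (hik a)
        rw [hi, hi] at h4
        exact absurd ((A.orderEmbOfFin hcard).monotone hab) (not_le.2 h4)
      have h5 := hc (A.orderEmbOfFin hcard) (A.orderEmbOfFin hcard).strictMono
        (fun a => by rw [← hi]; exact num_lt p m _)
      have h6 : Finset.univ.image (A.orderEmbOfFin hcard) = A := by
        ext x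
        rw [Finset.mem_image]
        constructor
        · rintro ⟨a, -, rfl⟩
          exact A.orderEmbOfFin_mem hcard a
        · intro hx
          have : x ∈ Set.range (A.orderEmbOfFin hcard) := by
            rw [Finset.range_orderEmbOfFin]; exact hx
          obtain ⟨a, ha⟩ := this
          exact ⟨a, Finset.mem_univ _, ha⟩
      rw [h6] at h5
      rw [h5]
      congr 1
      funext l
      rw [← h3 i himono (fun a => by have := hik a; omega) l]
      congr 1
      congr 1
      funext z
      rw [← hi, num_digit, ZMod.natCast_zmod_val]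
    intro A hA B hB hA1 hB1
    rw [key A hA hA1, key B hB hB1]

end Pool.Agent.H161R3
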