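import Pool.Agent.H161R3.Corner2
import Pool.Agent.H161R3.Upper
set_option autoImplicit false

namespace Pool.Agent.H161R3.Corner

open Finset Module

theorem three_sets {T : Type} [Fintype T] [DecidableEq T] (S₁ S₂ S₃ : Finset T)
    (h₁ : 2 * Fintype.card T < 3 * S₁.card) (h₂ : 2 * Fintype.card T < 3 * S₂.card)
    (h₃ : 2 * Fintype.card T < 3 * S₃.card) : ∃ v, v ∈ S₁ ∧ v ∈ S₂ ∧ v ∈ S₃ := by
  by_contra hno
  push Not at hno
  have h : S₁.card + S₂.card + S₃.card ≤ 2 * Fintype.card T := by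
    have e : ∀ S : Finset T, S.card = ∑ v : T, if v ∈ S then 1 else 0 := by
      intro S; simp
    rw [e S₁, e S₂, e S₃, ← Finset.sum_add_distrib, ← Finset.sum_add_distrib]
    calc ∑ v : T, ((if v ∈ S₁ then 1 else 0) + (if v ∈ S₂ then 1 else 0) +
          (if v ∈ S₃ then 1 else 0)) ≤ ∑ _v : T, 2 := by
          refine Finset.sum_le_sum fun v _ => ?_
          by_cases h1 : v ∈ S₁ <;> by_cases h2 : v ∈ S₂ <;> by_cases h3 : v ∈ S₃ <;>
            simp [h1, h2, h3]
          exact hno v h1 h2 h3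
      _ = 2 * Fintype.card T := by
          rw [Finset.sum_const, Finset.card_univ, smul_eq_mul, mul_comm]
  omega

variable {n : ℕ}

/-- no nontrivial corner -/
def CornerFree (A : Finset (V n × V n)) : Prop :=
  ∀ x y z : V n, z ≠ 0 → (x, y) ∈ A → (x, y + z) ∈ A → (x + z, y) ∉ A

theorem card_W (W : Submodule (ZMod 2) (V n × V n)) [Fintype W] :
    Fintype.card W = 2 ^ finrank (ZMod 2) W := by
  rw [Module.card_eq_pow_finrank (K := ZMod 2), ZMod.card]

theorem coset_card [DecidableEq ((V n × V n))] (W : Submodule (ZMod 2) (V n × V n)) [Fintype W]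
    [DecidableEq ((V n × V n) ⧸ W)] [DecidableEq W]
    (A : Finset (V n × V n)) (p : V n × V n) :
    (Finset.univ.filter (fun v : W => p + (v : V n × V n) ∈ A)).card =
      (A.filter (fun a => W.mkQ a = W.mkQ p)).card := by
  refine Finset.card_bij (fun v _ => p + (v : V n × V n)) ?_ ?_ ?_
  · intro v hv
    refine Finset.mem_filter.2 ⟨(Finset.mem_filter.1 hv).2, ?_⟩
    rw [← sub_eq_zero, ← map_sub, add_sub_cancel_left, Submodule.mkQ_apply,
      Submodule.Quotient.mk_eq_zero]
    exact v.2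
  · intro v _ v' _ h
    exact Subtype.ext (add_left_cancel h)
  · intro b hb
    rw [Finset.mem_filter] at hb
    have h1 : b - p ∈ W := by
      rw [← Submodule.Quotient.mk_eq_zero, ← Submodule.mkQ_apply, map_sub, hb.2, sub_self]
    refine ⟨⟨b - p, h1⟩, Finset.mem_filter.2 ⟨Finset.mem_univ _, ?_⟩, ?_⟩
    · simpa using hb.1
    · simp

theorem dense_cosets (hn : 0 < n) (A : Finset (V n × V n)) (hA : CornerFree A)
    (W : Submodule (ZMod 2) (V n × V n)) (B : Finset ((V n × V n) ⧸ W))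
    (hB : ∀ q ∈ B, 2 * 2 ^ finrank (ZMod 2) W <
      3 * Nat.card {a // a ∈ A ∧ W.mkQ a = q}) :
    (B.card : ℝ) ≤ 3 * 2 ^ (2 * n - finrank (ZMod 2) W) *
      Real.exp (-((finrank (ZMod 2) W : ℝ) ^ 2 / (36 * n))) := by
  classical
  have : Fintype W := Fintype.ofFinite _
  have hNat : ∀ q, Nat.card {a // a ∈ A ∧ W.mkQ a = q} = (A.filter (fun a => W.mkQ a = q)).card := by
    intro q
    exact Nat.subtype_card _ (fun x => by rw [Finset.mem_filter])
  have key : ∀ x y z : V n, W.mkQ (x, y) ∈ B → W.mkQ (x, y + z) ∈ B → W.mkQ (x + z, y) ∈ B →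
      z = 0 := by
    intro x y z h1 h2 h3
    obtain ⟨v, hv1, hv2, hv3⟩ := three_sets
      (Finset.univ.filter (fun v : W => ((x, y) : V n × V n) + (v : V n × V n) ∈ A))
      (Finset.univ.filter (fun v : W => ((x, y + z) : V n × V n) + (v : V n × V n) ∈ A))
      (Finset.univ.filter (fun v : W => ((x + z, y) : V n × V n) + (v : V n × V n) ∈ A))
      (by rw [coset_card, card_W, ← hNat]; exact hB _ h1)
      (by rw [coset_card, card_W, ← hNat]; exact hB _ h2)
      (by rw [coset_card, card_W, ← hNat]; exact hB _ h3)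
    by_contra hz
    obtain ⟨⟨a, b⟩, hab⟩ := v
    simp only [Finset.mem_filter, Finset.mem_univ, true_and, Prod.mk_add_mk] at hv1 hv2 hv3
    refine hA (x + a) (y + b) z hz hv1 ?_ ?_
    · rwa [show y + b + z = y + z + b by abel]
    · rwa [show x + a + z = x + z + a by abel]
  obtain ⟨hw1, hw2⟩ := main_count n W B key
  rcases B.eq_empty_or_nonempty with rfl | hne
  · simp only [Finset.card_empty, Nat.cast_zero]
    positivity
  have hw := hw1 hne
  set w := finrank (ZMod 2) W with hwdef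
  have hNpos : 0 < 2 * n - w := by omega
  have hnr : (0 : ℝ) < n := by exact_mod_cast hn
  have hwr : (2 : ℝ) * w ≤ 3 * n := by exact_mod_cast hw
  have hN : ((2 * n - w : ℕ) : ℝ) = 2 * n - w := by
    rw [Nat.cast_sub (by omega)]; push_cast; ring
  have hNr : (0 : ℝ) < 2 * n - w := by
    rw [← hN]; exact_mod_cast hNpos
  have hD : (((3 * n - 2 * w) / 3 : ℕ) : ℝ) + (w : ℝ) / 6 ≤ ((2 * n - w : ℕ) : ℝ) / 2 := by
    have h1 : (((3 * n - 2 * w) / 3 : ℕ) : ℝ) ≤ ((3 * n - 2 * w : ℕ) : ℝ) / 3 := Nat.cast_div_le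
    have h2 : ((3 * n - 2 * w : ℕ) : ℝ) = 3 * n - 2 * w := by
      rw [Nat.cast_sub hw]; push_cast; ring
    rw [h2] at h1
    rw [hN]
    linarith
  have hch := chernoff (2 * n - w) ((3 * n - 2 * w) / 3) ((w : ℝ) / 6) (by positivity) hNpos hD
  calc (B.card : ℝ) ≤ ((3 * ∑ j ∈ Finset.range ((3 * n - 2 * w) / 3 + 1),
          (2 * n - w).choose j : ℕ) : ℝ) := by exact_mod_cast hw2
    _ = 3 * ((∑ j ∈ Finset.range ((3 * n - 2 * w) / 3 + 1), (2 * n - w).choose j : ℕ) : ℝ) := by
        push_cast; ring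
    _ ≤ 3 * (2 ^ (2 * n - w) * Real.exp (-(2 * ((w : ℝ) / 6) ^ 2 / ((2 * n - w : ℕ) : ℝ)))) := by
        linarith
    _ ≤ 3 * 2 ^ (2 * n - w) * Real.exp (-((w : ℝ) ^ 2 / (36 * n))) := by
        rw [mul_assoc]
        refine mul_le_mul_of_nonneg_left (mul_le_mul_of_nonneg_left (Real.exp_le_exp.2 ?_)
          (by positivity)) (by norm_num)
        rw [hN]
        apply neg_le_neg
        rw [div_le_div_iff₀ (by positivity) hNr]
        have : (0 : ℝ) ≤ (w : ℝ) ^ 2 * w := by positivity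
        nlinarith

theorem periodic (hn : 0 < n) (A : Finset (V n × V n)) (hA : CornerFree A)
    (W : Submodule (ZMod 2) (V n × V n)) (hW : ∀ a ∈ A, ∀ v ∈ W, a + v ∈ A) :
    (A.card : ℝ) ≤ 3 * 4 ^ n * Real.exp (-((finrank (ZMod 2) W : ℝ) ^ 2 / (36 * n))) := by
  classical
  have : Fintype W := Fintype.ofFinite _
  have hfib : ∀ q ∈ A.image W.mkQ, (A.filter (fun a => W.mkQ a = q)).card =
      2 ^ finrank (ZMod 2) W := by
    intro q hq
    obtain ⟨a, ha, rfl⟩ := Finset.mem_image.1 hq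
    have h := coset_card W A a
    have hall : (Finset.univ.filter (fun v : W => a + (v : V n × V n) ∈ A)) = Finset.univ :=
      Finset.filter_true_of_mem (fun v _ => hW a ha v.1 v.2)
    rw [hall, Finset.card_univ, card_W] at h
    convert h.symm
  have hd := dense_cosets hn A hA W (A.image W.mkQ) (by
    intro q hq
    rw [Nat.subtype_card (A.filter (fun a => W.mkQ a = q)) (fun x => by rw [Finset.mem_filter]),
      hfib q hq]
    have : 0 < 2 ^ finrank (ZMod 2) W := by positivity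
    omega)
  have hle : finrank (ZMod 2) W ≤ 2 * n := by
    have h1 := Submodule.finrank_le W
    rw [finrank_prod, finrank_fin_fun] at h1
    omega
  have hcard : A.card = (A.image W.mkQ).card * 2 ^ finrank (ZMod 2) W := by
    rw [Finset.card_eq_sum_card_image W.mkQ A, Finset.sum_congr rfl hfib, Finset.sum_const,
      smul_eq_mul]
  rw [hcard]
  push_cast
  calc ((A.image W.mkQ).card : ℝ) * 2 ^ finrank (ZMod 2) W
      ≤ (3 * 2 ^ (2 * n - finrank (ZMod 2) W) *
        Real.exp (-((finrank (ZMod 2) W : ℝ) ^ 2 / (36 * n)))) * 2 ^ finrank (ZMod 2) W :=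
        mul_le_mul_of_nonneg_right hd (by positivity)
    _ = 3 * (2 ^ (2 * n - finrank (ZMod 2) W) * 2 ^ finrank (ZMod 2) W) *
        Real.exp (-((finrank (ZMod 2) W : ℝ) ^ 2 / (36 * n))) := by ring
    _ = 3 * 4 ^ n * Real.exp (-((finrank (ZMod 2) W : ℝ) ^ 2 / (36 * n))) := by
        rw [← pow_add, Nat.sub_add_cancel hle, pow_mul]
        norm_num

open MvPolynomial in
theorem low_degree (A : Finset (V n × V n)) (hA : CornerFree A)
    (P : MvPolynomial (Fin n ⊕ Fin n) (ZMod 2)) (hP : 2 * P.totalDegree < n)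
    (hsupp : ∀ x y : V n, eval (Sum.elim x y) P ≠ 0 → (x, y) ∈ A) :
    ∀ x y : V n, eval (Sum.elim x y) P = 0 := by
  classical
  intro x y
  by_contra hne
  let s1 : Fin n ⊕ Fin n → MvPolynomial (Fin n) (ZMod 2) :=
    Sum.elim (fun j => C (x j)) (fun j => C (y j) + X j)
  let s2 : Fin n ⊕ Fin n → MvPolynomial (Fin n) (ZMod 2) :=
    Sum.elim (fun j => C (x j) + X j) (fun j => C (y j))
  have hd : ∀ c : ZMod 2, ∀ j : Fin n, (C c + X j : MvPolynomial (Fin n) (ZMod 2)).totalDegree ≤ 1 := by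
    intro c j
    refine (totalDegree_add _ _).trans ?_
    rw [totalDegree_C, totalDegree_X]
    simp
  have h1 : ∀ i, (s1 i).totalDegree ≤ 1 := by
    rintro (j | j)
    · simp [s1]
    · exact hd _ _
  have h2 : ∀ i, (s2 i).totalDegree ≤ 1 := by
    rintro (j | j)
    · exact hd _ _
    · simp [s2]
  have e1 : ∀ z, eval z (bind₁ s1 P) = eval (Sum.elim x (y + z)) P := by
    intro z
    have h := eval₂Hom_bind₁ (RingHom.id (ZMod 2)) z s1 P
    have h' : (fun i => (eval₂Hom (RingHom.id (ZMod 2)) z) (s1 i)) = Sum.elim x (y + z) := by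
      funext i
      change eval z (s1 i) = _
      rcases i with j | j <;> simp [s1]
    rw [h'] at h
    exact h
  have e2 : ∀ z, eval z (bind₁ s2 P) = eval (Sum.elim (x + z) y) P := by
    intro z
    have h := eval₂Hom_bind₁ (RingHom.id (ZMod 2)) z s2 P
    have h' : (fun i => (eval₂Hom (RingHom.id (ZMod 2)) z) (s2 i)) = Sum.elim (x + z) y := by
      funext i
      change eval z (s2 i) = _
      rcases i with j | j <;> simp [s2]
    rw [h'] at h
    exact h
  have hsum : ∑ z : Fin n → ZMod 2, eval z (bind₁ s1 P * bind₁ s2 P) = 0 := by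
    apply MvPolynomial.sum_eval_eq_zero
    rw [ZMod.card, Fintype.card_fin]
    have := (totalDegree_mul (bind₁ s1 P) (bind₁ s2 P))
    have h3 := totalDegree_bind₁_le s1 h1 P
    have h4 := totalDegree_bind₁_le s2 h2 P
    omega
  rw [Finset.sum_eq_single (0 : Fin n → ZMod 2)] at hsum
  · rw [map_mul, e1, e2, add_zero, add_zero, mul_self_eq_zero] at hsum
    exact hne hsum
  · intro z _ hz
    rw [map_mul, e1, e2]
    by_contra hcon
    have h5 := left_ne_zero_of_mul hcon
    have h6 := right_ne_zero_of_mul hcon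
    exact hA x y z hz (hsupp _ _ hne) (hsupp _ _ h5) (hsupp _ _ h6)
  · intro h; exact absurd (Finset.mem_univ _) h

end Pool.Agent.H161R3.Corner
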