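import Mathlib
set_option autoImplicit false

namespace Pool.Agent.H161R3

open MvPolynomial Finset

/-- vector of binary digits of an integer -/
def bits (m : ℕ) (x : ℕ) : Fin m → ZMod 2 := fun j => ((x / 2 ^ (j : ℕ) % 2 : ℕ) : ZMod 2)

theorem bits_inj (m : ℕ) {x y : ℕ} (hx : x < 2 ^ m) (hy : y < 2 ^ m)
    (h : bits m x = bits m y) : x = y := by
  have h1 : (finFunctionFinEquiv (m := 2) (n := m)).symm ⟨x, hx⟩ =
      (finFunctionFinEquiv (m := 2) (n := m)).symm ⟨y, hy⟩ := by
    funext j
    have h2 := congrFun h j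
    simp only [bits] at h2
    rw [ZMod.natCast_eq_natCast_iff'] at h2
    apply Fin.ext
    rw [Nat.mod_mod, Nat.mod_mod] at h2
    exact h2
  have h3 := (finFunctionFinEquiv (m := 2) (n := m)).symm.injective h1
  exact congrArg Fin.val h3

theorem card_ker (m : ℕ) (c : Fin m → ZMod 2) (hc : c ≠ 0) :
    2 * (Finset.univ.filter (fun l : Fin m → ZMod 2 => ∑ j, l j * c j = 0)).card = 2 ^ m := by
  classical
  obtain ⟨j, hj⟩ := Function.ne_iff.1 hc
  have hj1 : c j = 1 := by
    have : ∀ x : ZMod 2, x ≠ 0 → x = 1 := by decide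
    exact this _ hj
  have hsum : ∀ l : Fin m → ZMod 2, ∑ i, (l + Pi.single j 1 : Fin m → ZMod 2) i * c i = ∑ i, l i * c i + 1 := by
    intro l
    simp only [Pi.add_apply, add_mul, Finset.sum_add_distrib]
    congr 1
    rw [Finset.sum_eq_single j]
    · rw [Pi.single_eq_same, hj1, one_mul]
    · intro b _ hb
      rw [Pi.single_eq_of_ne hb, zero_mul]
    · intro h; exact absurd (Finset.mem_univ _) h
  have h11 : ∀ x : ZMod 2, x + 1 = 0 ↔ ¬ x = 0 := by decide
  have heq : (Finset.univ.filter (fun l : Fin m → ZMod 2 => ∑ j, l j * c j = 0)).card =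
      (Finset.univ.filter (fun l : Fin m → ZMod 2 => ¬ ∑ j, l j * c j = 0)).card := by
    refine Finset.card_bij' (fun l _ => l + Pi.single j 1) (fun l _ => l + Pi.single j 1) ?_ ?_ ?_ ?_
    · intro l hl
      rw [Finset.mem_filter] at hl ⊢
      refine ⟨Finset.mem_univ _, ?_⟩
      rw [hsum, hl.2]
      decide
    · intro l hl
      rw [Finset.mem_filter] at hl ⊢
      refine ⟨Finset.mem_univ _, ?_⟩
      rw [hsum, h11]
      exact hl.2
    · intro l _
      funext i
      simp only [Pi.add_apply]
      have : ∀ a b : ZMod 2, a + b + b = a := by decide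
      exact this _ _
    · intro l _
      funext i
      simp only [Pi.add_apply]
      have : ∀ a b : ZMod 2, a + b + b = a := by decide
      exact this _ _
  have htot := Finset.card_filter_add_card_filter_not (s := (Finset.univ : Finset (Fin m → ZMod 2)))
    (fun l : Fin m → ZMod 2 => ∑ j, l j * c j = 0)
  rw [← heq, Finset.card_univ, Fintype.card_fun, ZMod.card, Fintype.card_fin] at htot
  omega

theorem exists_half (m : ℕ) (T : Finset (Fin m → ZMod 2)) (a : Fin m → ZMod 2) (ha : a ∉ T) :
    ∃ l : Fin m → ZMod 2, 2 * (T.filter (fun b => ∑ j, l j * (b j - a j) = 0)).card ≤ T.card := by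
  classical
  have hsum : ∑ l : Fin m → ZMod 2, 2 * (T.filter (fun b => ∑ j, l j * (b j - a j) = 0)).card ≤
      ∑ _l : Fin m → ZMod 2, T.card := by
    have e1 : ∑ l : Fin m → ZMod 2, 2 * (T.filter (fun b => ∑ j, l j * (b j - a j) = 0)).card =
        ∑ b ∈ T, 2 * (Finset.univ.filter
          (fun l : Fin m → ZMod 2 => ∑ j, l j * (b j - a j) = 0)).card := by
      simp only [Finset.card_filter, Finset.mul_sum]
      rw [Finset.sum_comm]
    rw [e1]
    have e2 : ∀ b ∈ T, 2 * (Finset.univ.filter
          (fun l : Fin m → ZMod 2 => ∑ j, l j * (b j - a j) = 0)).card = 2 ^ m := by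
      intro b hb
      have := card_ker m (fun j => b j - a j) (fun h => ha (by
        have : b = a := by
          funext j
          exact sub_eq_zero.1 (congrFun h j)
        exact this ▸ hb))
      exact this
    rw [Finset.sum_congr rfl e2, Finset.sum_const, Finset.sum_const, Finset.card_univ,
      Fintype.card_fun, ZMod.card, Fintype.card_fin]
    simp [Nat.mul_comm]
  obtain ⟨l, -, hl⟩ := Finset.exists_le_of_sum_le (Finset.univ_nonempty) hsum
  exact ⟨l, hl⟩

/-- Fewer than `2 ^ d` points can be separated from another point by a polynomial of degree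
`≤ d` over `F_2`. -/
theorem separate (m : ℕ) (d : ℕ) : ∀ (T : Finset (Fin m → ZMod 2)) (a : Fin m → ZMod 2), a ∉ T →
    T.card < 2 ^ d → ∃ Q : MvPolynomial (Fin m) (ZMod 2), Q.totalDegree ≤ d ∧ eval a Q = 1 ∧
      ∀ b ∈ T, eval b Q = 0 := by
  classical
  induction d with
  | zero =>
    intro T a _ hT
    refine ⟨1, by simp, by simp, fun b hb => ?_⟩
    rw [pow_zero, Nat.lt_one_iff, Finset.card_eq_zero] at hT
    rw [hT] at hb
    exact absurd hb (Finset.notMem_empty _)
  | succ d ih =>
    intro T a ha hT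
    obtain ⟨l, hl⟩ := exists_half m T a ha
    obtain ⟨Q, h1, h2, h3⟩ := ih (T.filter (fun b => ∑ j, l j * (b j - a j) = 0)) a
      (fun h => ha (Finset.mem_filter.1 h).1) (by rw [pow_succ] at hT; omega)
    refine ⟨Q * (C (1 + ∑ j, l j * a j) + ∑ j, C (l j) * X j), ?_, ?_, ?_⟩
    · refine (totalDegree_mul _ _).trans (Nat.add_le_add h1 ?_)
      refine (totalDegree_add _ _).trans (max_le (by rw [totalDegree_C]; exact Nat.zero_le _) ?_)
      refine totalDegree_finsetSum_le fun j _ => ?_
      refine (totalDegree_mul _ _).trans ?_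
      rw [totalDegree_C, totalDegree_X]
    · rw [map_mul, h2, one_mul, map_add, eval_C, map_sum]
      simp only [map_mul, eval_C, eval_X]
      have : ∀ x : ZMod 2, 1 + x + x = 1 := by decide
      exact this _
    · intro b hb
      rw [map_mul]
      by_cases hb0 : ∑ j, l j * (b j - a j) = 0
      · rw [h3 b (Finset.mem_filter.2 ⟨hb, hb0⟩), zero_mul]
      · have e : eval b (C (1 + ∑ j, l j * a j) + ∑ j, C (l j) * X j) = 0 := by
          rw [map_add, eval_C, map_sum]
          simp only [map_mul, eval_C, eval_X]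
          simp only [mul_sub, Finset.sum_sub_distrib] at hb0
          have : ∀ x y : ZMod 2, ¬ (x - y = 0) → 1 + y + x = 0 := by decide
          exact this _ _ hb0
        rw [e, mul_zero]

/-- increasing enumeration of an `r`-set -/
def enum (r : ℕ) (A : Finset ℕ) : Fin r → ℕ :=
  if h : A.card = r then A.orderEmbOfFin h else fun _ => 0

theorem enum_eq {r : ℕ} {A : Finset ℕ} (h : A.card = r) : enum r A = A.orderEmbOfFin h := by
  unfold enum; rw [dif_pos h]

theorem enum_mem {r : ℕ} {A : Finset ℕ} (h : A.card = r) (i : Fin r) : enum r A i ∈ A := by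
  rw [enum_eq h]; exact A.orderEmbOfFin_mem h i

theorem enum_strictMono {r : ℕ} {A : Finset ℕ} (h : A.card = r) : StrictMono (enum r A) := by
  rw [enum_eq h]; exact (A.orderEmbOfFin h).strictMono

theorem enum_image {r : ℕ} {A : Finset ℕ} (h : A.card = r) :
    Finset.univ.image (enum r A) = A := by
  rw [enum_eq h]
  ext x
  rw [Finset.mem_image]
  constructor
  · rintro ⟨a, -, rfl⟩
    exact A.orderEmbOfFin_mem h a
  · intro hx
    have : x ∈ Set.range (A.orderEmbOfFin h) := by
      rw [Finset.range_orderEmbOfFin]; exact hx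
    obtain ⟨a, ha⟩ := this
    exact ⟨a, Finset.mem_univ _, ha⟩

theorem enum_of_image {r : ℕ} {v : Fin r → ℕ} (hv : StrictMono v) :
    enum r (Finset.univ.image v) = v := by
  have hcard : (Finset.univ.image v).card = r := by
    rw [Finset.card_image_of_injective _ hv.injective, Finset.card_univ, Fintype.card_fin]
  rw [enum_eq hcard]
  symm
  exact Finset.orderEmbOfFin_unique hcard (fun x => Finset.mem_image_of_mem _ (Finset.mem_univ _)) hv

/-- functions given by polynomials of degree at most `D`, invariant under permutations of the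
`r` blocks of variables -/
def polyFun (r m D : ℕ) : Submodule (ZMod 2) ((Fin r × Fin m → ZMod 2) → ZMod 2) where
  carrier := {F | (∃ P : MvPolynomial (Fin r × Fin m) (ZMod 2), P.totalDegree ≤ D ∧
    ∀ x, F x = eval x P) ∧ ∀ (π : Equiv.Perm (Fin r)) x, F (fun z => x (π z.1, z.2)) = F x}
  add_mem' := by
    rintro F G ⟨⟨P, hP, hP2⟩, hF⟩ ⟨⟨Q, hQ, hQ2⟩, hG⟩
    exact ⟨⟨P + Q, (totalDegree_add _ _).trans (max_le hP hQ), fun x => by
      rw [Pi.add_apply, hP2, hQ2, map_add]⟩, fun π x => by
      rw [Pi.add_apply, Pi.add_apply, hF, hG]⟩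
  zero_mem' := ⟨⟨0, by simp, fun x => by simp⟩, fun π x => rfl⟩
  smul_mem' := by
    rintro c F ⟨⟨P, hP, hP2⟩, hF⟩
    exact ⟨⟨C c * P, (totalDegree_mul _ _).trans (by rw [totalDegree_C, zero_add]; exact hP),
      fun x => by rw [Pi.smul_apply, hP2, map_mul, eval_C, smul_eq_mul]⟩, fun π x => by
      rw [Pi.smul_apply, Pi.smul_apply, hF]⟩

/-- restriction of a polynomial function to the `r`-subsets of `S` -/
noncomputable def restr (r m D : ℕ) (S : Finset ℕ) :
    polyFun r m D →ₗ[ZMod 2] ({A // A ∈ S.powersetCard r} → ZMod 2) where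
  toFun F A := F.1 (fun z => bits m (enum r A.1 z.1) z.2)
  map_add' _ _ := rfl
  map_smul' _ _ := rfl

theorem restr_surj (r m d k : ℕ) (hk : k ≤ 2 ^ d) (S : Finset ℕ) (hS : S.card = k)
    (hSm : S ⊆ Finset.range (2 ^ m)) : Function.Surjective (restr r m (r * d) S) := by
  classical
  have hex : ∀ A0 : {A // A ∈ S.powersetCard r}, ∃ F : polyFun r m (r * d),
      restr r m (r * d) S F = Pi.single A0 1 := by
    intro A0
    have hA0 := Finset.mem_powersetCard.1 A0.2
    have hq : ∀ i : Fin r, ∃ Q : MvPolynomial (Fin m) (ZMod 2), Q.totalDegree ≤ d ∧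
        eval (bits m (enum r A0.1 i)) Q = 1 ∧
        ∀ b ∈ (S.image (bits m)).erase (bits m (enum r A0.1 i)), eval b Q = 0 := by
      intro i
      refine separate m d _ _ (Finset.notMem_erase _ _) ?_
      have h1 : bits m (enum r A0.1 i) ∈ S.image (bits m) :=
        Finset.mem_image_of_mem _ (hA0.1 (enum_mem hA0.2 i))
      rw [Finset.card_erase_of_mem h1]
      have h2 : (S.image (bits m)).card ≤ k := hS ▸ Finset.card_image_le
      have h3 : 0 < (S.image (bits m)).card := Finset.card_pos.2 ⟨_, h1⟩
      omega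
    choose Q hQ1 hQ2 hQ3 using hq
    let P : MvPolynomial (Fin r × Fin m) (ZMod 2) := ∏ i, rename (fun j => (i, j)) (Q i)
    have hPeval : ∀ x, eval x P = ∏ i, eval (fun j => x (i, j)) (Q i) := by
      intro x
      rw [map_prod]
      refine Finset.prod_congr rfl fun i _ => ?_
      rw [eval_rename]
      rfl
    have hPdeg : P.totalDegree ≤ r * d := by
      refine (totalDegree_finsetProd _ _).trans ?_
      calc ∑ i : Fin r, (rename (fun j => (i, j)) (Q i)).totalDegree ≤ ∑ _i : Fin r, d :=
            Finset.sum_le_sum fun i _ => (totalDegree_rename_le _ _).trans (hQ1 i)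
        _ = r * d := by simp
    refine ⟨⟨fun x => ∑ π : Equiv.Perm (Fin r), eval (fun z => x (π z.1, z.2)) P,
      ⟨∑ π : Equiv.Perm (Fin r), rename (fun z => (π z.1, z.2)) P, ?_, ?_⟩, ?_⟩, ?_⟩
    · exact totalDegree_finsetSum_le fun π _ => (totalDegree_rename_le _ _).trans hPdeg
    · intro x
      rw [map_sum]
      refine Finset.sum_congr rfl fun π _ => ?_
      rw [eval_rename]
      rfl
    · intro π x
      exact Fintype.sum_equiv (Equiv.mulLeft π) _ _ fun σ => rfl
    · funext A
      change ∑ π : Equiv.Perm (Fin r), eval _ P = _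
      have hAp := Finset.mem_powersetCard.1 A.2
      have hterm : ∀ π : Equiv.Perm (Fin r), (enum r A.1 ∘ π ≠ enum r A0.1) →
          eval (fun z : Fin r × Fin m => bits m (enum r A.1 (π z.1)) z.2) P = 0 := by
        intro π hne
        rw [hPeval]
        obtain ⟨i, hi⟩ := Function.ne_iff.1 hne
        refine Finset.prod_eq_zero (Finset.mem_univ i) ?_
        refine hQ3 i _ (Finset.mem_erase.2 ⟨?_, Finset.mem_image_of_mem _
          (hAp.1 (enum_mem hAp.2 (π i)))⟩)
        intro hb
        exact hi (bits_inj m (Finset.mem_range.1 (hSm (hAp.1 (enum_mem hAp.2 (π i)))))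
          (Finset.mem_range.1 (hSm (hA0.1 (enum_mem hA0.2 i)))) hb)
      by_cases hA : A = A0
      · subst hA
        rw [Pi.single_eq_same, Finset.sum_eq_single (1 : Equiv.Perm (Fin r))]
        · rw [hPeval]
          exact Finset.prod_eq_one fun i _ => hQ2 i
        · intro π _ hπ
          apply hterm
          intro h
          apply hπ
          ext i
          have := (enum_strictMono hAp.2).injective (congrFun h i)
          rw [this]
          rfl
        · intro h; exact absurd (Finset.mem_univ _) h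
      · rw [Pi.single_eq_of_ne hA]
        refine Finset.sum_eq_zero fun π _ => hterm π ?_
        intro h
        apply hA
        apply Subtype.ext
        rw [← enum_image hAp.2, ← enum_image hA0.2, ← h]
        ext x
        simp only [Finset.mem_image, Finset.mem_univ, true_and, Function.comp]
        constructor
        · rintro ⟨a, rfl⟩
          exact ⟨π.symm a, by rw [Equiv.apply_symm_apply]⟩
        · rintro ⟨a, rfl⟩
          exact ⟨π a, rfl⟩
  intro y
  choose F hF using hex
  refine ⟨∑ A0, y A0 • F A0, ?_⟩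
  rw [map_sum]
  simp only [map_smul, hF]
  funext A
  simp [Finset.sum_apply, Pi.single_apply]

theorem fiber_card {G H : Type} [AddCommGroup G] [AddCommGroup H] [Fintype G] [Fintype H]
    [DecidableEq H] [Module (ZMod 2) G] [Module (ZMod 2) H] (f : G →ₗ[ZMod 2] H)
    (hf : Function.Surjective f) (y : H) :
    Fintype.card H * (Finset.univ.filter (fun x => f x = y)).card = Fintype.card G := by
  classical
  have h1 := Finset.card_eq_sum_card_fiberwise (f := f) (s := (Finset.univ : Finset G))
    (t := (Finset.univ : Finset H)) (fun _ _ => Finset.mem_coe.2 (Finset.mem_univ _))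
  have h2 : ∀ z ∈ (Finset.univ : Finset H), (Finset.univ.filter (fun x => f x = z)).card =
      (Finset.univ.filter (fun x => f x = y)).card := by
    intro z _
    exact AddMonoidHom.card_fiber_eq_of_mem_range f (hf z) (hf y)
  rw [Finset.sum_congr rfl h2, Finset.sum_const, Finset.card_univ, Finset.card_univ,
    smul_eq_mul] at h1
  exact h1.symm

/-- Low-degree colourings without large homogeneous sets. -/
theorem lower (r k m : ℕ) (hk : 3 ≤ k) (hm : m * k ≤ k.choose r) :
    ∃ P : MvPolynomial (Fin r × Fin m) (ZMod 2), P.totalDegree ≤ r * Nat.clog 2 k ∧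
      (∀ (π : Equiv.Perm (Fin r)) x, eval (fun z => x (π z.1, z.2)) P = eval x P) ∧
      ∀ S ⊆ Finset.range (2 ^ m), S.card = k → ∃ A ⊆ S, ∃ B ⊆ S, A.card = r ∧ B.card = r ∧
        eval (fun z => bits m (enum r A z.1) z.2) P ≠ eval (fun z => bits m (enum r B z.1) z.2) P := by
  classical
  by_contra hno
  push Not at hno
  set d := Nat.clog 2 k with hd
  have hkd : k ≤ 2 ^ d := Nat.le_pow_clog (by norm_num) k
  have : Fintype (polyFun r m (r * d)) := Fintype.ofFinite _
  set 𝒮 := (Finset.range (2 ^ m)).powersetCard k with h𝒮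
  let bad : Finset ℕ → ZMod 2 → Finset (polyFun r m (r * d)) := fun S e =>
    Finset.univ.filter (fun F => restr r m (r * d) S F = fun _ => e)
  have hbad : ∀ S ∈ 𝒮, ∀ e, 2 ^ (k.choose r) * (bad S e).card =
      Fintype.card (polyFun r m (r * d)) := by
    intro S hS e
    have hS' := Finset.mem_powersetCard.1 hS
    have h1 := fiber_card (restr r m (r * d) S) (restr_surj r m d k hkd S hS'.2 hS'.1) (fun _ => e)
    rw [Fintype.card_fun, ZMod.card, Fintype.card_coe, Finset.card_powersetCard, hS'.2] at h1
    exact h1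
  have hcover : (Finset.univ : Finset (polyFun r m (r * d))) ⊆
      𝒮.biUnion (fun S => Finset.univ.biUnion (fun e => bad S e)) := by
    intro F _
    obtain ⟨⟨P, hP, hP2⟩, hP3⟩ := F.2
    obtain ⟨S, hS1, hS2, hS3⟩ := hno P hP (fun π x => by rw [← hP2, ← hP2]; exact hP3 π x)
    refine Finset.mem_biUnion.2 ⟨S, Finset.mem_powersetCard.2 ⟨hS1, hS2⟩, ?_⟩
    have hconst : ∃ e : ZMod 2, ∀ A : {A // A ∈ S.powersetCard r}, restr r m (r * d) S F A = e := by
      by_cases hne : (S.powersetCard r).Nonempty
      · obtain ⟨A0, hA0⟩ := hne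
        refine ⟨restr r m (r * d) S F ⟨A0, hA0⟩, fun A => ?_⟩
        have hA := Finset.mem_powersetCard.1 A.2
        have hA0' := Finset.mem_powersetCard.1 hA0
        have h5 := hS3 A.1 hA.1 A0 hA0'.1 hA.2 hA0'.2
        change F.1 _ = F.1 _
        rw [hP2, hP2]
        exact h5
      · exact ⟨0, fun A => absurd ⟨A.1, A.2⟩ hne⟩
    obtain ⟨e, he⟩ := hconst
    exact Finset.mem_biUnion.2 ⟨e, Finset.mem_univ _,
      Finset.mem_filter.2 ⟨Finset.mem_univ _, funext he⟩⟩
  have hle := Finset.card_le_card hcover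
  rw [Finset.card_univ] at hle
  have hle2 : 2 ^ (k.choose r) * Fintype.card (polyFun r m (r * d)) ≤
      𝒮.card * 2 * Fintype.card (polyFun r m (r * d)) := by
    calc 2 ^ (k.choose r) * Fintype.card (polyFun r m (r * d))
        ≤ 2 ^ (k.choose r) * ∑ S ∈ 𝒮, ∑ e : ZMod 2, (bad S e).card := by
          refine Nat.mul_le_mul_left _ (hle.trans ?_)
          refine Finset.card_biUnion_le.trans (Finset.sum_le_sum fun S _ => ?_)
          exact Finset.card_biUnion_le
      _ = ∑ S ∈ 𝒮, ∑ e : ZMod 2, 2 ^ (k.choose r) * (bad S e).card := by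
          rw [Finset.mul_sum]
          refine Finset.sum_congr rfl fun S _ => ?_
          rw [Finset.mul_sum]
      _ = ∑ S ∈ 𝒮, ∑ e : ZMod 2, Fintype.card (polyFun r m (r * d)) :=
          Finset.sum_congr rfl fun S hS => Finset.sum_congr rfl fun e _ => hbad S hS e
      _ = 𝒮.card * 2 * Fintype.card (polyFun r m (r * d)) := by
          simp [Finset.sum_const, Finset.card_univ, ZMod.card, mul_assoc]
  have hpos : 0 < Fintype.card (polyFun r m (r * d)) := Fintype.card_pos
  have h6 : 2 ^ (k.choose r) ≤ 𝒮.card * 2 := Nat.le_of_mul_le_mul_right hle2 hpos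
  rw [h𝒮, Finset.card_powersetCard, Finset.card_range] at h6
  have h7 : k.factorial * (2 ^ m).choose k ≤ 2 ^ (k.choose r) := by
    rw [← Nat.descFactorial_eq_factorial_mul_choose]
    refine (Nat.descFactorial_le_pow _ _).trans ?_
    rw [← pow_mul]
    exact Nat.pow_le_pow_right (by norm_num) hm
  have h8 : 6 ≤ k.factorial := by
    have : Nat.factorial 3 ≤ k.factorial := Nat.factorial_le hk
    simpa [Nat.factorial] using this
  have h9 : 6 * (2 ^ m).choose k ≤ 2 ^ (k.choose r) := (Nat.mul_le_mul_right _ h8).trans h7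
  have h10 : 0 < 2 ^ (k.choose r) := by positivity
  omega

end Pool.Agent.H161R3
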