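import Pool.Agent.H161R3.Upper
set_option autoImplicit false

namespace Pool.Agent.H161R3.Multi

open MvPolynomial Finset

variable {K : Type} [Field K] {m : ℕ}

/-- `y ↦ P(x, y)` -/
noncomputable def right (x : Fin m → K) (P : MvPolynomial (Fin m ⊕ Fin m) K) :
    MvPolynomial (Fin m) K :=
  bind₁ (Sum.elim (fun j => C (x j)) X) P

/-- `y ↦ P(y, y)` -/
noncomputable def diag (P : MvPolynomial (Fin m ⊕ Fin m) K) : MvPolynomial (Fin m) K :=
  bind₁ (Sum.elim X X) P

theorem eval_right (x y : Fin m → K) (P : MvPolynomial (Fin m ⊕ Fin m) K) :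
    eval y (right x P) = eval (Sum.elim x y) P := by
  have h1 := eval₂Hom_bind₁ (RingHom.id K) y (Sum.elim (fun j => C (x j)) X) P
  have h2 : (fun z => (eval₂Hom (RingHom.id K) y) (Sum.elim (fun j => C (x j)) X z)) =
      Sum.elim x y := by
    funext z
    change eval y _ = _
    rcases z with z | z <;> simp
  rw [h2] at h1
  exact h1

theorem eval_diag (y : Fin m → K) (P : MvPolynomial (Fin m ⊕ Fin m) K) :
    eval y (diag P) = eval (Sum.elim y y) P := by
  have h1 := eval₂Hom_bind₁ (RingHom.id K) y (Sum.elim X X) P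
  have h2 : (fun z => (eval₂Hom (RingHom.id K) y) (Sum.elim X X z)) =
      Sum.elim y y := by
    funext z
    change eval y _ = _
    rcases z with z | z <;> simp
  rw [h2] at h1
  exact h1

theorem deg_right (x : Fin m → K) (P : MvPolynomial (Fin m ⊕ Fin m) K) :
    (right x P).totalDegree ≤ P.totalDegree := by
  refine totalDegree_bind₁_le _ (fun z => ?_) P
  rcases z with z | z <;> simp

theorem deg_diag (P : MvPolynomial (Fin m ⊕ Fin m) K) :
    (diag P).totalDegree ≤ P.totalDegree := by
  refine totalDegree_bind₁_le _ (fun z => ?_) P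
  rcases z with z | z <;> simp

/-- some colour class polynomial does not vanish on the diagonal -/
theorem diag_ne [Fintype K] [DecidableEq K] {ι : Type} [Fintype ι] (D : ℕ)
    (f : ι → MvPolynomial (Fin m ⊕ Fin m) K)
    (hD : ∀ i, (f i).totalDegree ≤ D) (hm : D < m) (x : Fin m → K)
    (hf : ∀ y, y ≠ x → ∃! i, eval (Sum.elim x y) (f i) ≠ 0) :
    ∃ i, eval (Sum.elim x x) (f i) ≠ 0 := by
  classical
  by_contra hno
  push Not at hno
  have hq : 0 < Fintype.card K - 1 := by
    have := Fintype.one_lt_card (α := K)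
    omega
  have hz : ∀ i, ∑ y : Fin m → K, eval y ((right x (f i)) ^ (Fintype.card K - 1)) = 0 := by
    intro i
    refine sum_eval_eq_zero _ ?_
    calc ((right x (f i)) ^ (Fintype.card K - 1)).totalDegree
        ≤ (Fintype.card K - 1) * (right x (f i)).totalDegree := totalDegree_pow _ _
      _ ≤ (Fintype.card K - 1) * D :=
          Nat.mul_le_mul_left _ ((deg_right x _).trans (hD i))
      _ < (Fintype.card K - 1) * Fintype.card (Fin m) := by
          rw [Fintype.card_fin]
          exact Nat.mul_lt_mul_of_pos_left hm hq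
  have hz2 : ∑ y : Fin m → K, ∑ i, eval y ((right x (f i)) ^ (Fintype.card K - 1)) = 0 := by
    rw [Finset.sum_comm]
    exact Finset.sum_eq_zero fun i _ => hz i
  have hval : ∀ y : Fin m → K, ∑ i, eval y ((right x (f i)) ^ (Fintype.card K - 1)) =
      if y = x then 0 else 1 := by
    intro y
    split_ifs with h
    · subst h
      refine Finset.sum_eq_zero fun i _ => ?_
      rw [map_pow, eval_right, hno i, zero_pow hq.ne']
    · obtain ⟨i, hi, hu⟩ := hf y h
      rw [Finset.sum_eq_single i]
      · rw [map_pow, eval_right]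
        exact FiniteField.pow_card_sub_one_eq_one _ hi
      · intro j _ hj
        rw [map_pow, eval_right]
        by_cases hj0 : eval (Sum.elim x y) (f j) = 0
        · rw [hj0, zero_pow hq.ne']
        · exact absurd (hu j hj0) hj
      · intro h
        exact absurd (Finset.mem_univ _) h
  rw [Finset.sum_congr rfl (fun y _ => hval y)] at hz2
  have h3 : ∑ y : Fin m → K, (if y = x then (0 : K) else 1) =
      (∑ y : Fin m → K, (1 : K)) - 1 := by
    have e1 := Finset.sum_erase_add (Finset.univ : Finset (Fin m → K))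
      (fun y => if y = x then (0 : K) else 1) (Finset.mem_univ x)
    have e2 := Finset.sum_erase_add (Finset.univ : Finset (Fin m → K))
      (fun _ => (1 : K)) (Finset.mem_univ x)
    rw [← e1, ← e2]
    simp only [if_true, add_zero, add_sub_cancel_right]
    refine Finset.sum_congr rfl fun y hy => ?_
    rw [if_neg (Finset.ne_of_mem_erase hy)]
  rw [h3, Finset.sum_const, Finset.card_univ, Fintype.card_fun, Fintype.card_fin, nsmul_eq_mul,
    mul_one, Nat.cast_pow, Nat.cast_card_eq_zero, zero_pow (by omega), zero_sub] at hz2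
  exact one_ne_zero (neg_eq_zero.1 hz2)

/-- one more vertex -/
theorem extend [Fintype K] [DecidableEq K] (D E : ℕ) (f : MvPolynomial (Fin m ⊕ Fin m) K)
    (hD : f.totalDegree ≤ D) (R : MvPolynomial (Fin m) K) (hR : R.totalDegree ≤ E)
    (S : Finset (Fin m → K)) (v : Fin m → K) (hv : v ∈ S)
    (hS : ∀ a ∈ S, eval (Sum.elim a v) f ≠ 0) (hRv : eval v R ≠ 0)
    (hdeg : S.card * D + E + (S.card - 1) < m * (Fintype.card K - 1)) :
    ∃ u, u ∉ S ∧ (∀ a ∈ S, eval (Sum.elim a u) f ≠ 0) ∧ eval u R ≠ 0 := by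
  classical
  have hj : ∀ a : Fin m → K, ∃ ℓ : MvPolynomial (Fin m) K, ℓ.totalDegree ≤ 1 ∧
      (a ≠ v → eval a ℓ = 0 ∧ eval v ℓ ≠ 0) := by
    intro a
    by_cases h : a = v
    · exact ⟨0, by simp, fun h' => absurd h h'⟩
    · obtain ⟨j, hj⟩ := Function.ne_iff.1 h
      refine ⟨X j - C (a j), ?_, fun _ => ⟨by simp, ?_⟩⟩
      · refine (totalDegree_sub _ _).trans ?_
        simp
      · rw [map_sub, eval_X, eval_C]
        exact sub_ne_zero.2 (Ne.symm hj)
  choose ℓ hℓ1 hℓ2 using hj
  set Q : MvPolynomial (Fin m) K := (∏ a ∈ S, right a f) * R * ∏ a ∈ S.erase v, ℓ a with hQ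
  have hQdeg : Q.totalDegree < (Fintype.card K - 1) * Fintype.card (Fin m) := by
    have h1 : (∏ a ∈ S, right a f).totalDegree ≤ S.card * D := by
      refine (totalDegree_finsetProd _ _).trans ?_
      refine (Finset.sum_le_card_nsmul _ _ D fun a _ => (deg_right a f).trans hD).trans ?_
      rw [smul_eq_mul]
    have h2 : (∏ a ∈ S.erase v, ℓ a).totalDegree ≤ S.card - 1 := by
      refine (totalDegree_finsetProd _ _).trans ?_
      refine (Finset.sum_le_card_nsmul _ _ 1 fun a _ => hℓ1 a).trans ?_
      rw [smul_eq_mul, mul_one, Finset.card_erase_of_mem hv]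
    have h3 := totalDegree_mul ((∏ a ∈ S, right a f) * R) (∏ a ∈ S.erase v, ℓ a)
    have h4 := totalDegree_mul (∏ a ∈ S, right a f) R
    rw [Fintype.card_fin, mul_comm]
    rw [← hQ] at h3
    omega
  have hsum := sum_eval_eq_zero Q hQdeg
  have hQv : eval v Q ≠ 0 := by
    rw [hQ, map_mul, map_mul, map_prod, map_prod]
    refine mul_ne_zero (mul_ne_zero (Finset.prod_ne_zero_iff.2 fun a ha => ?_) hRv)
      (Finset.prod_ne_zero_iff.2 fun a ha => ?_)
    · rw [eval_right]; exact hS a ha
    · exact (hℓ2 a (Finset.ne_of_mem_erase ha)).2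
  obtain ⟨u, huv, hu⟩ : ∃ u, u ≠ v ∧ eval u Q ≠ 0 := by
    by_contra hno
    push Not at hno
    rw [Finset.sum_eq_single v (fun u _ huv => hno u huv)
      (fun h => absurd (Finset.mem_univ _) h)] at hsum
    exact hQv hsum
  rw [hQ, map_mul, map_mul, map_prod, map_prod] at hu
  have hu1 := left_ne_zero_of_mul hu
  have hu2 := right_ne_zero_of_mul hu
  refine ⟨u, fun huS => ?_, fun a ha => ?_, right_ne_zero_of_mul hu1⟩
  · have := Finset.prod_ne_zero_iff.1 hu2 u (Finset.mem_erase.2 ⟨huv, huS⟩)
    exact this (hℓ2 u huv).1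
  · have := Finset.prod_ne_zero_iff.1 (left_ne_zero_of_mul hu1) a ha
    rwa [eval_right] at this

/-- cliques -/
theorem clique [Fintype K] [DecidableEq K] (D t : ℕ) (f : MvPolynomial (Fin m ⊕ Fin m) K)
    (hD : f.totalDegree ≤ D) (hsymm : ∀ a b : Fin m → K, a ≠ b →
      eval (Sum.elim a b) f ≠ 0 → eval (Sum.elim b a) f ≠ 0)
    (v : Fin m → K) (hv : eval (Sum.elim v v) f ≠ 0)
    (hdeg : (t + 1) * D + t < m * (Fintype.card K - 1)) :
    ∃ S : Finset (Fin m → K), S.card = t + 2 ∧
      ∀ a ∈ S, ∀ b ∈ S, a ≠ b → eval (Sum.elim a b) f ≠ 0 := by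
  classical
  have key : ∀ s ≤ t, ∃ S : Finset (Fin m → K), S.card = s + 1 ∧ v ∈ S ∧
      ∀ a ∈ S, ∀ b ∈ S, eval (Sum.elim a b) f ≠ 0 := by
    intro s
    induction s with
    | zero =>
      intro _
      refine ⟨{v}, by simp, by simp, ?_⟩
      intro a ha b hb
      rw [Finset.mem_singleton] at ha hb
      rw [ha, hb]; exact hv
    | succ s ih =>
      intro hs
      obtain ⟨S, hc, hvS, hS⟩ := ih (by omega)
      have hdeg' : S.card * D + D + (S.card - 1) < m * (Fintype.card K - 1) := by
        refine lt_of_le_of_lt ?_ hdeg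
        rw [hc]
        have : (s + 1) * D + D = (s + 2) * D := by ring
        rw [this]
        have h2 : (s + 2) * D ≤ (t + 1) * D := Nat.mul_le_mul_right _ (by omega)
        omega
      obtain ⟨u, huS, hu, hud⟩ := extend D D f hD (diag f) ((deg_diag f).trans hD) S v hvS
        (fun a ha => hS a ha v hvS) (by rw [eval_diag]; exact hS v hvS v hvS) hdeg'
      refine ⟨insert u S, ?_, Finset.mem_insert_of_mem hvS, ?_⟩
      · rw [Finset.card_insert_of_notMem huS, hc]
      · intro a ha b hb
        rw [Finset.mem_insert] at ha hb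
        rcases ha with rfl | ha <;> rcases hb with rfl | hb
        · rwa [eval_diag] at hud
        · exact hsymm b a (fun h => huS (h ▸ hb)) (hu b hb)
        · exact hu a ha
        · exact hS a ha b hb
  obtain ⟨S, hc, hvS, hS⟩ := key t le_rfl
  obtain ⟨u, huS, hu, -⟩ := extend D 0 f hD 1 (by simp) S v hvS
    (fun a ha => hS a ha v hvS) (by simp) (by rw [hc]; simpa using hdeg)
  refine ⟨insert u S, ?_, ?_⟩
  · rw [Finset.card_insert_of_notMem huS, hc]
  · intro a ha b hb hab
    rw [Finset.mem_insert] at ha hb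
    rcases ha with rfl | ha <;> rcases hb with rfl | hb
    · exact absurd rfl hab
    · exact hsymm b a (fun h => huS (h ▸ hb)) (hu b hb)
    · exact hu a ha
    · exact hS a ha b hb

end Pool.Agent.H161R3.Multi
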