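import Pool.Agent.H161R3.UpperSym
set_option autoImplicit false

namespace Pool.Agent.H161R3

open MvPolynomial Finset

/-- A polynomial over `F_2` of degree at most `D` that vanishes at all points with at most `D`
nonzero coordinates vanishes everywhere. -/
theorem zero_of_low_weight {σ : Type} [Fintype σ] [DecidableEq σ] (D : ℕ)
    (P : MvPolynomial σ (ZMod 2)) (hP : P.totalDegree ≤ D)
    (h0 : ∀ x : σ → ZMod 2, (Finset.univ.filter (fun i => x i ≠ 0)).card ≤ D → eval x P = 0) :
    ∀ x : σ → ZMod 2, eval x P = 0 := by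
  classical
  have key : ∀ (n : ℕ) (x : σ → ZMod 2), (Finset.univ.filter (fun i => x i ≠ 0)).card = n →
      eval x P = 0 := by
    intro n
    induction n using Nat.strong_induction_on with
    | _ n ih =>
      intro x hx
      rcases Nat.lt_or_ge D n with hlt | hge
      swap
      · exact h0 x (by omega)
      let S := Finset.univ.filter (fun i => x i ≠ 0)
      let f : σ → MvPolynomial {i // i ∈ S} (ZMod 2) := fun i =>
        if h : i ∈ S then X ⟨i, h⟩ else 0
      have hf : ∀ i, (f i).totalDegree ≤ 1 := by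
        intro i
        simp only [f]
        split_ifs
        · rw [totalDegree_X]
        · simp
      let ext : ({i // i ∈ S} → ZMod 2) → σ → ZMod 2 := fun y i => if h : i ∈ S then y ⟨i, h⟩ else 0
      have hev : ∀ y, eval y (bind₁ f P) = eval (ext y) P := by
        intro y
        have h1 := eval₂Hom_bind₁ (RingHom.id (ZMod 2)) y f P
        have h2 : (fun z => (eval₂Hom (RingHom.id (ZMod 2)) y) (f z)) = ext y := by
          funext z
          change eval y (f z) = _
          simp only [f, ext]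
          split_ifs
          · rw [eval_X]
          · rw [map_zero]
        rw [h2] at h1
        exact h1
      have hsum : ∑ y : {i // i ∈ S} → ZMod 2, eval y (bind₁ f P) = 0 := by
        apply MvPolynomial.sum_eval_eq_zero
        rw [ZMod.card, Fintype.card_coe]
        have := totalDegree_bind₁_le f hf P
        have h3 : S.card = n := hx
        omega
      rw [Finset.sum_eq_single (fun i => x i.1)] at hsum
      · rw [hev] at hsum
        have : ext (fun i => x i.1) = x := by
          funext i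
          simp only [ext]
          split_ifs with h
          · rfl
          · by_contra hne
            exact h (Finset.mem_filter.2 ⟨Finset.mem_univ _, fun h' => hne h'.symm⟩)
        rw [this] at hsum
        exact hsum
      · intro y _ hy
        rw [hev]
        refine ih _ ?_ (ext y) rfl
        rw [← hx]
        apply Finset.card_lt_card
        refine ⟨?_, ?_⟩
        · intro i hi
          rw [Finset.mem_filter] at hi
          by_contra hiS
          apply hi.2
          simp only [ext]
          rw [dif_neg hiS]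
        · intro hsub
          apply hy
          funext i
          have h4 := hsub i.2
          rw [Finset.mem_filter] at h4
          have h5 : ext y i.1 = y i := by
            simp only [ext]
            rw [dif_pos i.2]
          rw [h5] at h4
          have h6 : x i.1 ≠ 0 := (Finset.mem_filter.1 i.2).2
          have : ∀ a b : ZMod 2, a ≠ 0 → b ≠ 0 → a = b := by decide
          exact this _ _ h4.2 h6
      · intro h; exact absurd (Finset.mem_univ _) h
  intro x
  exact key _ x rfl

/-- number of points with at most `D` nonzero coordinates -/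
theorem card_low_weight {σ : Type} [Fintype σ] [DecidableEq σ] (D : ℕ) :
    (Finset.univ.filter (fun x : σ → ZMod 2 =>
      (Finset.univ.filter (fun i => x i ≠ 0)).card ≤ D)).card ≤
      ∑ i ∈ Finset.range (D + 1), (Fintype.card σ).choose i := by
  classical
  have h1 : (Finset.univ.filter (fun x : σ → ZMod 2 =>
      (Finset.univ.filter (fun i => x i ≠ 0)).card ≤ D)).card ≤
      ((Finset.range (D + 1)).biUnion (fun i => (Finset.univ : Finset σ).powersetCard i)).card := by
    refine Finset.card_le_card_of_injOn (fun x => Finset.univ.filter (fun i => x i ≠ 0)) ?_ ?_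
    · intro x hx
      rw [Finset.mem_coe, Finset.mem_filter] at hx
      rw [Finset.mem_coe, Finset.mem_biUnion]
      exact ⟨_, Finset.mem_range.2 (Nat.lt_succ_of_le hx.2),
        Finset.mem_powersetCard.2 ⟨Finset.subset_univ _, rfl⟩⟩
    · intro x _ y _ hxy
      funext i
      have h2 := Finset.ext_iff.1 hxy i
      simp only [Finset.mem_filter, Finset.mem_univ, true_and] at h2
      have : ∀ a b : ZMod 2, (a ≠ 0 ↔ b ≠ 0) → a = b := by decide
      exact this _ _ h2
  refine h1.trans (Finset.card_biUnion_le.trans (Finset.sum_le_sum fun i _ => ?_))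
  rw [Finset.card_powersetCard, Finset.card_univ]

/-- One step: add a vector in a fresh block of coordinates. -/
theorem step_sub (r T m s D M t : ℕ)
    (P : Fin s → MvPolynomial (Fin r × Fin m) (ZMod 2))
    (hP : ∀ l, (P l).totalDegree ≤ D) (γ : Fin s → ZMod 2)
    (hM : (Finset.univ.filter (fun x : Fin r × Fin T → ZMod 2 =>
      (Finset.univ.filter (fun i => x i ≠ 0)).card ≤ D)).card ≤ M)
    (ht : t < T) (hm : (t + 1) * (s * D * M + 1) ≤ m)
    (u : Fin T → Fin m → ZMod 2) (hu0 : ∀ j : Fin T, t ≤ (j : ℕ) → u j = 0)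
    (hu : ∀ c : Fin r × Fin T → ZMod 2, ∀ l,
      eval (fun z => ∑ j, c (z.1, j) * u j z.2) (P l) = γ l) :
    ∃ w : Fin m → ZMod 2, w ≠ 0 ∧ (∀ j : Fin m, (j : ℕ) / (s * D * M + 1) ≠ t → w j = 0) ∧
      ∀ c : Fin r × Fin T → ZMod 2, ∀ l,
        eval (fun z => ∑ j, c (z.1, j) * (Function.update u ⟨t, ht⟩ w) j z.2) (P l) = γ l := by
  classical
  set L := s * D * M + 1 with hL
  have hLpos : 0 < L := by omega
  let emb : (Fin L → ZMod 2) → Fin m → ZMod 2 := fun w j =>
    if (j : ℕ) / L = t then w ⟨(j : ℕ) % L, Nat.mod_lt _ hLpos⟩ else 0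
  let W := (Finset.univ.filter (fun x : Fin r × Fin T → ZMod 2 =>
      (Finset.univ.filter (fun i => x i ≠ 0)).card ≤ D))
  -- the point as a function of the new vector `w` and coefficients `c`
  let pt : (Fin m → ZMod 2) → (Fin r × Fin T → ZMod 2) → Fin r × Fin m → ZMod 2 := fun w c z =>
    ∑ j, c (z.1, j) * (Function.update u ⟨t, ht⟩ w) j z.2
  have hpt : ∀ w c z, pt w c z = c (z.1, ⟨t, ht⟩) * w z.2 + ∑ j, c (z.1, j) * u j z.2 := by
    intro w c z
    simp only [pt]
    rw [← Finset.add_sum_erase _ _ (Finset.mem_univ (⟨t, ht⟩ : Fin T)),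
      ← Finset.add_sum_erase (a := (⟨t, ht⟩ : Fin T)) (f := fun j => c (z.1, j) * u j z.2) _
        (Finset.mem_univ _)]
    rw [Function.update_self, hu0 ⟨t, ht⟩ le_rfl]
    simp only [Pi.zero_apply, mul_zero, zero_add]
    congr 1
    refine Finset.sum_congr rfl fun j hj => ?_
    rw [Function.update_of_ne (Finset.ne_of_mem_erase hj)]
  let sub : (Fin r × Fin T → ZMod 2) → Fin r × Fin m → MvPolynomial (Fin L) (ZMod 2) := fun c z =>
    C (c (z.1, ⟨t, ht⟩)) * (if (z.2 : ℕ) / L = t then X ⟨(z.2 : ℕ) % L, Nat.mod_lt _ hLpos⟩ else 0) +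
      C (∑ j, c (z.1, j) * u j z.2)
  let F : Fin s × {c // c ∈ W} → MvPolynomial (Fin L) (ZMod 2) := fun le =>
    bind₁ (sub le.2.1) (P le.1) - C (γ le.1)
  have hsub : ∀ e z, (sub e z).totalDegree ≤ 1 := by
    intro e z
    simp only [sub]
    refine (totalDegree_add _ _).trans ?_
    rw [totalDegree_C]
    refine max_le ((totalDegree_mul _ _).trans ?_) (Nat.zero_le _)
    rw [totalDegree_C, zero_add]
    split_ifs
    · rw [totalDegree_X]
    · simp
  have hFdeg : ∀ le, (F le).totalDegree ≤ D := by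
    intro le
    simp only [F]
    refine (totalDegree_sub _ _).trans ?_
    rw [totalDegree_C]
    exact max_le ((totalDegree_bind₁_le _ (hsub _) _).trans (hP _)) (Nat.zero_le _)
  have hsum : (∑ le, (F le).totalDegree) < Fintype.card (Fin L) := by
    calc (∑ le, (F le).totalDegree) ≤ ∑ _le : Fin s × {c // c ∈ W}, D :=
          Finset.sum_le_sum fun le _ => hFdeg le
      _ = s * W.card * D := by
          simp [Finset.sum_const, Finset.card_univ]
      _ ≤ s * M * D := Nat.mul_le_mul_right _ (Nat.mul_le_mul_left _ hM)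
      _ < Fintype.card (Fin L) := by
          rw [Fintype.card_fin, hL]
          have : s * M * D = s * D * M := by ring
          omega
  have hdvd := char_dvd_card_solutions_of_fintype_sum_lt (K := ZMod 2) 2 hsum
  have heval : ∀ w c l, eval w (bind₁ (sub c) (P l)) = eval (pt (emb w) c) (P l) := by
    intro w c l
    have h1 := eval₂Hom_bind₁ (RingHom.id (ZMod 2)) w (sub c) (P l)
    have h2 : (fun z => (eval₂Hom (RingHom.id (ZMod 2)) w) (sub c z)) = pt (emb w) c := by
      funext z
      change eval w (sub c z) = _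
      rw [hpt]
      simp only [sub, emb]
      rw [map_add, map_mul, eval_C, eval_C]
      congr 2
      split_ifs
      · rw [eval_X]
      · rw [map_zero]
    rw [h2] at h1
    exact h1
  have hzero : ∀ le, eval 0 (F le) = 0 := by
    intro le
    simp only [F]
    rw [map_sub, eval_C, heval, sub_eq_zero]
    have he0 : emb 0 = 0 := by
      funext j; simp [emb]
    rw [he0]
    have : pt 0 le.2.1 = fun z => ∑ j, le.2.1 (z.1, j) * u j z.2 := by
      funext z
      rw [hpt]
      simp
    rw [this]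
    exact hu _ _
  have hex : ∃ w : Fin L → ZMod 2, w ≠ 0 ∧ ∀ le, eval w (F le) = 0 := by
    by_contra hno
    push Not at hno
    have : Fintype.card { x : Fin L → ZMod 2 // ∀ i, eval x (F i) = 0 } = 1 := by
      rw [Fintype.card_eq_one_iff]
      refine ⟨⟨0, hzero⟩, fun y => Subtype.ext ?_⟩
      by_contra hy
      obtain ⟨le, hle⟩ := hno y.1 hy
      exact hle (y.2 le)
    rw [this] at hdvd
    have := Nat.le_of_dvd one_pos hdvd
    omega
  obtain ⟨w, hw0, hw⟩ := hex
  refine ⟨emb w, ?_, ?_, ?_⟩
  · obtain ⟨i, hi⟩ := Function.ne_iff.1 hw0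
    have hlt : t * L + (i : ℕ) < m := by
      have := i.2
      calc t * L + (i : ℕ) < t * L + L := by omega
        _ = (t + 1) * L := by ring
        _ ≤ m := hm
    refine Function.ne_iff.2 ⟨⟨t * L + i, hlt⟩, ?_⟩
    have h1 : (t * L + (i : ℕ)) / L = t := by
      rw [Nat.add_comm, Nat.add_mul_div_right _ _ hLpos, Nat.div_eq_of_lt i.2, zero_add]
    have h2 : (t * L + (i : ℕ)) % L = i := by
      rw [Nat.add_comm, Nat.add_mul_mod_self_right, Nat.mod_eq_of_lt i.2]
    simp only [emb, h1, if_true, h2]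
    simpa using hi
  · intro j hj
    simp only [emb, if_neg hj]
  · intro c l
    -- as a function of `c` this is a polynomial of degree at most `D`
    let sub2 : Fin r × Fin m → MvPolynomial (Fin r × Fin T) (ZMod 2) := fun z =>
      ∑ j, C ((Function.update u ⟨t, ht⟩ (emb w)) j z.2) * X (z.1, j)
    have hsub2 : ∀ z, (sub2 z).totalDegree ≤ 1 := by
      intro z
      refine totalDegree_finsetSum_le fun j _ => (totalDegree_mul _ _).trans ?_
      rw [totalDegree_C, totalDegree_X]
    have hev2 : ∀ c : Fin r × Fin T → ZMod 2,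
        eval c (bind₁ sub2 (P l) - C (γ l)) = eval (pt (emb w) c) (P l) - γ l := by
      intro c
      rw [map_sub, eval_C]
      congr 1
      have h1 := eval₂Hom_bind₁ (RingHom.id (ZMod 2)) c sub2 (P l)
      have h2 : (fun z => (eval₂Hom (RingHom.id (ZMod 2)) c) (sub2 z)) = pt (emb w) c := by
        funext z
        change eval c (sub2 z) = _
        simp only [sub2, pt]
        rw [map_sum]
        refine Finset.sum_congr rfl fun j _ => ?_
        rw [map_mul, eval_C, eval_X, mul_comm]
      rw [h2] at h1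
      exact h1
    have hdeg2 : (bind₁ sub2 (P l) - C (γ l)).totalDegree ≤ D := by
      refine (totalDegree_sub _ _).trans ?_
      rw [totalDegree_C]
      exact max_le ((totalDegree_bind₁_le _ hsub2 _).trans (hP _)) (Nat.zero_le _)
    have hall := zero_of_low_weight D _ hdeg2 (fun x hx => by
      rw [hev2]
      have h3 := hw (l, ⟨x, Finset.mem_filter.2 ⟨Finset.mem_univ _, hx⟩⟩)
      simp only [F] at h3
      rw [map_sub, eval_C, heval] at h3
      exact h3) c
    rw [hev2, sub_eq_zero] at hall
    exact hall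

theorem chain_sub (r T m s D M : ℕ)
    (P : Fin s → MvPolynomial (Fin r × Fin m) (ZMod 2))
    (hP : ∀ l, (P l).totalDegree ≤ D)
    (hM : (Finset.univ.filter (fun x : Fin r × Fin T → ZMod 2 =>
      (Finset.univ.filter (fun i => x i ≠ 0)).card ≤ D)).card ≤ M)
    (hm : T * (s * D * M + 1) ≤ m) (t : ℕ) (ht : t ≤ T) :
    ∃ u : Fin T → Fin m → ZMod 2,
      (∀ j : Fin T, t ≤ (j : ℕ) → u j = 0) ∧
      (∀ j : Fin T, (j : ℕ) < t → u j ≠ 0) ∧
      (∀ (j : Fin T) (i : Fin m), (i : ℕ) / (s * D * M + 1) ≠ j → u j i = 0) ∧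
      (∀ c : Fin r × Fin T → ZMod 2, ∀ l,
        eval (fun z => ∑ j, c (z.1, j) * u j z.2) (P l) = eval (fun _ => 0) (P l)) := by
  induction t with
  | zero =>
    refine ⟨fun _ => 0, fun _ _ => rfl, fun j hj => absurd hj (Nat.not_lt_zero _),
      fun _ _ _ => rfl, fun c l => ?_⟩
    congr 1
    congr 1
    funext z
    simp
  | succ t ih =>
    obtain ⟨u, h1, h2, h3, h4⟩ := ih (by omega)
    have hm' : (t + 1) * (s * D * M + 1) ≤ m :=
      le_trans (Nat.mul_le_mul_right _ (by omega)) hm
    obtain ⟨w, hw0, hwb, hw⟩ := step_sub r T m s D M t P hP _ hM (by omega) hm' u h1 h4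
    refine ⟨Function.update u ⟨t, by omega⟩ w, ?_, ?_, ?_, hw⟩
    · intro j hj
      rw [Function.update_of_ne (by intro h; rw [h] at hj; simp at hj)]
      exact h1 j (by omega)
    · intro j hj
      by_cases hjt : j = ⟨t, by omega⟩
      · rw [hjt, Function.update_self]; exact hw0
      · rw [Function.update_of_ne hjt]
        refine h2 j ?_
        have : (j : ℕ) ≠ t := fun h => hjt (Fin.ext h)
        omega
    · intro j i hi
      by_cases hjt : j = ⟨t, by omega⟩
      · subst hjt
        rw [Function.update_self]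
        exact hwb i hi
      · rw [Function.update_of_ne hjt]
        exact h3 j i hi

/-- Colourings of low degree are constant on the `r`-subsets of a large subspace. -/
theorem upper_sub (r T m s D : ℕ)
    (hm : T * (s * D * (∑ i ∈ Finset.range (D + 1), (r * T).choose i) + 1) ≤ m)
    (κ : Type) (c : Finset ℕ → κ)
    (P : Fin s → MvPolynomial (Fin r × Fin m) (ZMod 2)) (g : (Fin s → ZMod 2) → κ)
    (hP : ∀ l, (P l).totalDegree ≤ D)
    (hc : ∀ v : Fin r → ℕ, StrictMono v → (∀ i, v i < 2 ^ m) →
      c (Finset.univ.image v) =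
        g (fun l => eval (fun z => ((v z.1 / 2 ^ (z.2 : ℕ) % 2 : ℕ) : ZMod 2)) (P l))) :
    ∃ S ⊆ Finset.range (2 ^ m), S.card = 2 ^ T ∧
      ∀ A ⊆ S, ∀ B ⊆ S, A.card = r → B.card = r → c A = c B := by
  classical
  set M := ∑ i ∈ Finset.range (D + 1), (r * T).choose i with hMdef
  have hM : (Finset.univ.filter (fun x : Fin r × Fin T → ZMod 2 =>
      (Finset.univ.filter (fun i => x i ≠ 0)).card ≤ D)).card ≤ M := by
    have := card_low_weight (σ := Fin r × Fin T) D
    rw [Fintype.card_prod, Fintype.card_fin, Fintype.card_fin] at this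
    exact this
  obtain ⟨u, -, h2, h3, h4⟩ := chain_sub r T m s D M P hP hM hm T le_rfl
  let x : (Fin T → ZMod 2) → Fin m → ZMod 2 := fun a i => ∑ j, a j * u j i
  have hxinj : Function.Injective x := by
    intro a b hab
    funext j
    obtain ⟨i, hi⟩ := Function.ne_iff.1 (h2 j j.2)
    have hi' : u j i ≠ 0 := hi
    have hblock : (i : ℕ) / (s * D * M + 1) = j := by
      by_contra hne
      exact hi' (h3 j i hne)
    have hone : ∀ e : Fin T → ZMod 2, x e i = e j * u j i := by
      intro e
      simp only [x]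
      rw [Finset.sum_eq_single j]
      · intro b _ hb
        rw [h3 b i (fun h => hb (Fin.ext (by rw [← h, hblock]))), mul_zero]
      · intro h; exact absurd (Finset.mem_univ _) h
    have h5 := congrFun hab i
    rw [hone, hone] at h5
    exact mul_right_cancel₀ hi' h5
  refine ⟨Finset.univ.image (fun a => num 2 m (x a)), ?_, ?_, ?_⟩
  · intro y hy
    obtain ⟨a, -, rfl⟩ := Finset.mem_image.1 hy
    exact Finset.mem_range.2 (num_lt 2 m _)
  · have hcomp : Function.Injective (fun a => num 2 m (x a)) := (num_inj 2 m).comp hxinj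
    rw [Finset.card_image_of_injective _ hcomp, Finset.card_univ,
      Fintype.card_fun, ZMod.card, Fintype.card_fin]
  · have key : ∀ A ⊆ Finset.univ.image (fun a => num 2 m (x a)), A.card = r →
        c A = g (fun l => eval (fun _ => 0) (P l)) := by
      intro A hA hcard
      have hmem : ∀ a : Fin r, ∃ b, num 2 m (x b) = A.orderEmbOfFin hcard a := by
        intro a
        obtain ⟨b, -, hb2⟩ := Finset.mem_image.1 (hA (A.orderEmbOfFin_mem hcard a))
        exact ⟨b, hb2⟩
      choose i hi using hmem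
      have h5 := hc (A.orderEmbOfFin hcard) (A.orderEmbOfFin hcard).strictMono
        (fun a => by rw [← hi]; exact num_lt 2 m _)
      have h6 : Finset.univ.image (A.orderEmbOfFin hcard) = A := by
        ext y
        rw [Finset.mem_image]
        constructor
        · rintro ⟨a, -, rfl⟩
          exact A.orderEmbOfFin_mem hcard a
        · intro hy
          have : y ∈ Set.range (A.orderEmbOfFin hcard) := by
            rw [Finset.range_orderEmbOfFin]; exact hy
          obtain ⟨a, ha⟩ := this
          exact ⟨a, Finset.mem_univ _, ha⟩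
      rw [h6] at h5
      rw [h5]
      congr 1
      funext l
      rw [← h4 (fun z => i z.1 z.2) l]
      congr 1
      congr 1
      funext z
      rw [← hi, num_digit, ZMod.natCast_zmod_val]
    intro A hA B hB hA1 hB1
    rw [key A hA hA1, key B hB hB1]

/-- `∑_{i ≤ D} C(n, i) ≤ 9 ^ D (10 / 9) ^ n`. -/
theorem sum_choose_le (n D : ℕ) :
    ((∑ i ∈ Finset.range (D + 1), n.choose i : ℕ) : ℝ) ≤ 9 ^ D * (10 / 9 : ℝ) ^ n := by
  have h1 : ((10 : ℝ) / 9) ^ n = ∑ i ∈ Finset.range (n + 1), (1 / 9 : ℝ) ^ i * (n.choose i : ℝ) := by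
    have := add_pow (1 / 9 : ℝ) 1 n
    simp only [one_pow, mul_one] at this
    rw [← this]
    norm_num
  have h2 : ∀ i ∈ Finset.range (D + 1), ((n.choose i : ℕ) : ℝ) ≤
      9 ^ D * ((1 / 9 : ℝ) ^ i * (n.choose i : ℝ)) := by
    intro i hi
    have hi' : i ≤ D := Nat.lt_succ_iff.1 (Finset.mem_range.1 hi)
    have h3 : (1 : ℝ) ≤ 9 ^ D * (1 / 9 : ℝ) ^ i := by
      obtain ⟨e, rfl⟩ := Nat.exists_eq_add_of_le hi'
      rw [pow_add, mul_comm ((9 : ℝ) ^ i), mul_assoc, ← mul_pow]
      norm_num
      exact one_le_pow₀ (by norm_num)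
    calc ((n.choose i : ℕ) : ℝ) = 1 * (n.choose i : ℝ) := by rw [one_mul]
      _ ≤ (9 ^ D * (1 / 9 : ℝ) ^ i) * (n.choose i : ℝ) :=
          mul_le_mul_of_nonneg_right h3 (Nat.cast_nonneg _)
      _ = _ := by ring
  rw [Nat.cast_sum]
  calc ∑ i ∈ Finset.range (D + 1), ((n.choose i : ℕ) : ℝ)
      ≤ ∑ i ∈ Finset.range (D + 1), 9 ^ D * ((1 / 9 : ℝ) ^ i * (n.choose i : ℝ)) :=
        Finset.sum_le_sum h2
    _ = 9 ^ D * ∑ i ∈ Finset.range (D + 1), ((1 / 9 : ℝ) ^ i * (n.choose i : ℝ)) := by
        rw [Finset.mul_sum]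
    _ ≤ 9 ^ D * (10 / 9 : ℝ) ^ n := by
        refine mul_le_mul_of_nonneg_left ?_ (by positivity)
        rw [h1]
        rcases Nat.le_total D n with h | h
        · refine Finset.sum_le_sum_of_subset_of_nonneg
            (Finset.range_subset_range.2 (by omega)) fun i _ _ => by positivity
        · obtain ⟨e, rfl⟩ := Nat.exists_eq_add_of_le h
          rw [show n + e + 1 = (n + 1) + e by ring, Finset.sum_range_add]
          have : ∑ x ∈ Finset.range e, (1 / 9 : ℝ) ^ (n + 1 + x) * ((n.choose (n + 1 + x) : ℕ) : ℝ)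
              = 0 := by
            refine Finset.sum_eq_zero fun x _ => ?_
            rw [Nat.choose_eq_zero_of_lt (by omega)]
            simp
          rw [this, add_zero]

/-- Explicit numerical form for pairs. -/
theorem numeric (t D m : ℕ) (hD : 1 ≤ D) (hDt : 5 * D ≤ t) (hm : t ^ 2 * 48 ^ t ≤ 25 ^ t * m) :
    t * (1 * D * (∑ i ∈ Finset.range (D + 1), (2 * t).choose i) + 1) ≤ m := by
  set M := ∑ i ∈ Finset.range (D + 1), (2 * t).choose i with hM
  have h1 : (M : ℝ) ≤ 9 ^ D * (10 / 9 : ℝ) ^ (2 * t) := sum_choose_le (2 * t) D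
  have h2 : (9 : ℝ) ^ D * (10 / 9 : ℝ) ^ (2 * t) ≤ (48 / 25 : ℝ) ^ t := by
    have h5 : ((9 : ℝ) ^ D * (10 / 9 : ℝ) ^ (2 * t)) ^ 5 ≤ ((48 / 25 : ℝ) ^ t) ^ 5 := by
      have e1 : ((9 : ℝ) ^ D * (10 / 9 : ℝ) ^ (2 * t)) ^ 5 = 9 ^ (5 * D) * ((10 / 9 : ℝ) ^ 10) ^ t := by
        rw [mul_pow, ← pow_mul, ← pow_mul, ← pow_mul]
        congr 2 <;> ring
      have e2 : ((48 / 25 : ℝ) ^ t) ^ 5 = ((48 / 25 : ℝ) ^ 5) ^ t := by
        rw [← pow_mul, ← pow_mul, mul_comm]
      rw [e1, e2]
      calc (9 : ℝ) ^ (5 * D) * ((10 / 9 : ℝ) ^ 10) ^ t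
          ≤ 9 ^ t * ((10 / 9 : ℝ) ^ 10) ^ t := by
            refine mul_le_mul_of_nonneg_right ?_ (by positivity)
            exact pow_le_pow_right₀ (by norm_num) hDt
        _ = (9 * (10 / 9 : ℝ) ^ 10) ^ t := by rw [mul_pow]
        _ ≤ ((48 / 25 : ℝ) ^ 5) ^ t := by
            refine pow_le_pow_left₀ (by positivity) ?_ t
            norm_num
    exact le_of_pow_le_pow_left₀ (by norm_num) (by positivity) h5
  have h3 : (t : ℝ) ^ 2 * (48 / 25 : ℝ) ^ t ≤ m := by
    have : ((t ^ 2 * 48 ^ t : ℕ) : ℝ) ≤ ((25 ^ t * m : ℕ) : ℝ) := by exact_mod_cast hm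
    push_cast at this
    rw [div_pow, ← mul_div_assoc, div_le_iff₀ (by positivity)]
    linarith [this]
  have ht5 : (5 : ℝ) ≤ t := by
    have : 5 ≤ t := by omega
    exact_mod_cast this
  have hDr : (D : ℝ) ≤ t / 5 := by
    have : ((5 * D : ℕ) : ℝ) ≤ t := by exact_mod_cast hDt
    push_cast at this
    linarith
  have hM1 : (1 : ℝ) ≤ (48 / 25 : ℝ) ^ t := one_le_pow₀ (by norm_num)
  have h4 : ((t * (1 * D * M + 1) : ℕ) : ℝ) ≤ m := by
    push_cast
    have hMr : (M : ℝ) ≤ (48 / 25 : ℝ) ^ t := h1.trans h2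
    have hM0 : (0 : ℝ) ≤ M := Nat.cast_nonneg _
    calc (t : ℝ) * (1 * D * M + 1) ≤ t * (t / 5 * (48 / 25 : ℝ) ^ t + (48 / 25 : ℝ) ^ t) := by
          refine mul_le_mul_of_nonneg_left ?_ (by linarith)
          have : (1 : ℝ) * D * M ≤ t / 5 * (48 / 25 : ℝ) ^ t := by
            rw [one_mul]
            exact mul_le_mul hDr hMr hM0 (by linarith)
          linarith
      _ ≤ t * (t * (48 / 25 : ℝ) ^ t) := by
          refine mul_le_mul_of_nonneg_left ?_ (by linarith)
          nlinarith
      _ = (t : ℝ) ^ 2 * (48 / 25 : ℝ) ^ t := by ring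
      _ ≤ m := h3
  exact_mod_cast h4

end Pool.Agent.H161R3
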