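import Pool.Agent.H161R3.Upper
set_option autoImplicit false

namespace Pool.Agent.H161R3

open MvPolynomial Finset

/-- One step of the greedy construction for symmetric colourings (Chevalley–Warning). -/
theorem step_sym (p : ℕ) [Fact p.Prime] (q k m s D t : ℕ)
    (P : Fin s → MvPolynomial (Fin (q + 1) × Fin m) (ZMod p))
    (hP : ∀ l, (P l).totalDegree ≤ D) (γ : Fin s → ZMod p)
    (htk : t + 1 < k) (hm : s * D * k ^ q + k ≤ m)
    (v : ℕ → Fin m → ZMod p) (hdist : ∀ a < t, v a ≠ v t)
    (hv : ∀ i : Fin (q + 1) → ℕ, Monotone i → (∀ a, i a ≤ t) → ∀ l,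
      eval (fun z => v (i z.1) z.2) (P l) = γ l) :
    ∃ u : Fin m → ZMod p, (∀ a ≤ t, v a ≠ u) ∧
      ∀ i : Fin (q + 1) → ℕ, Monotone i → (∀ a, i a ≤ t + 1) → ∀ l,
        eval (fun z => (Function.update v (t + 1) u) (i z.1) z.2) (P l) = γ l := by
  classical
  have hdist' : ∀ a : Fin t, ∃ j, v a j ≠ v t j := fun a => Function.ne_iff.1 (hdist a a.2)
  choose J hJ using hdist'
  let V : (Fin m → ZMod p) → ℕ → Fin m → ZMod p := fun w => Function.update v (t + 1) w
  let tup : (Fin q → Fin k) → Fin (q + 1) → ℕ := fun e => Fin.snoc (α := fun _ => ℕ)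
    (fun a => (e a : ℕ)) (t + 1)
  let sub : (Fin q → Fin k) → Fin (q + 1) × Fin m → MvPolynomial (Fin m) (ZMod p) := fun e z =>
    if tup e z.1 = t + 1 then X z.2 else C (v (tup e z.1) z.2)
  let F : (Fin s × (Fin q → Fin k)) ⊕ Fin t → MvPolynomial (Fin m) (ZMod p) := Sum.elim
    (fun le => if Monotone (tup le.2) ∧ ∀ a, tup le.2 a ≤ t + 1 then
      bind₁ (sub le.2) (P le.1) - C (γ le.1) else 0)
    (fun a => X (J a) - C (v t (J a)))
  have hsub : ∀ e z, (sub e z).totalDegree ≤ 1 := by
    intro e z
    simp only [sub]
    split_ifs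
    · rw [totalDegree_X]
    · simp
  have hFdeg : ∀ le, (F (Sum.inl le)).totalDegree ≤ D := by
    intro le
    simp only [F, Sum.elim_inl]
    split_ifs
    · refine (totalDegree_sub _ _).trans ?_
      rw [totalDegree_C]
      refine max_le ((totalDegree_bind₁_le _ (hsub _) _).trans (hP _)) (Nat.zero_le _)
    · simp
  have hFdeg2 : ∀ a, (F (Sum.inr a)).totalDegree ≤ 1 := by
    intro a
    simp only [F, Sum.elim_inr]
    refine (totalDegree_sub _ _).trans ?_
    rw [totalDegree_C, totalDegree_X]
    simp
  have hsum : (∑ le, (F le).totalDegree) < Fintype.card (Fin m) := by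
    rw [Fintype.sum_sum_type]
    calc (∑ le, (F (Sum.inl le)).totalDegree) + ∑ a, (F (Sum.inr a)).totalDegree
        ≤ (∑ _le : Fin s × (Fin q → Fin k), D) + ∑ _a : Fin t, 1 :=
          Nat.add_le_add (Finset.sum_le_sum fun le _ => hFdeg le)
            (Finset.sum_le_sum fun a _ => hFdeg2 a)
      _ = s * k ^ q * D + t := by
          simp [Finset.sum_const, Finset.card_univ]
      _ < Fintype.card (Fin m) := by
          rw [Fintype.card_fin]
          have : s * k ^ q * D = s * D * k ^ q := by ring
          omega
  have hdvd := char_dvd_card_solutions_of_fintype_sum_lt (K := ZMod p) p hsum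
  have heval : ∀ w e l, eval w (bind₁ (sub e) (P l)) =
      eval (fun z => V w (tup e z.1) z.2) (P l) := by
    intro w e l
    have h1 := eval₂Hom_bind₁ (RingHom.id (ZMod p)) w (sub e) (P l)
    have h2 : (fun z => (eval₂Hom (RingHom.id (ZMod p)) w) (sub e z)) =
        fun z => V w (tup e z.1) z.2 := by
      funext z
      change eval w (sub e z) = _
      simp only [sub, V]
      by_cases hz : tup e z.1 = t + 1
      · rw [if_pos hz, hz, Function.update_self, eval_X]
      · rw [if_neg hz, eval_C, Function.update_of_ne hz]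
    rw [h2] at h1
    exact h1
  have hzero : ∀ le, eval (v t) (F le) = 0 := by
    rintro (le | a)
    · simp only [F, Sum.elim_inl]
      split_ifs with hc
      · rw [map_sub, eval_C, heval, sub_eq_zero]
        have hV : (fun z : Fin (q + 1) × Fin m => V (v t) (tup le.2 z.1) z.2) =
            fun z => v ((fun a => min (tup le.2 a) t) z.1) z.2 := by
          funext z
          simp only [V]
          by_cases hz : tup le.2 z.1 = t + 1
          · rw [hz, Function.update_self]
            congr 2
            omega
          · rw [Function.update_of_ne hz]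
            have := hc.2 z.1
            congr 2
            omega
        rw [hV]
        refine hv _ (fun a b hab => ?_) (fun a => min_le_right _ _) _
        exact min_le_min_right _ (hc.1 hab)
      · rw [map_zero]
    · simp only [F, Sum.elim_inr]
      rw [map_sub, eval_X, eval_C, sub_self]
  have hex : ∃ w : Fin m → ZMod p, w ≠ v t ∧ ∀ le, eval w (F le) = 0 := by
    by_contra hno
    push Not at hno
    have : Fintype.card { x : Fin m → ZMod p // ∀ i, eval x (F i) = 0 } = 1 := by
      rw [Fintype.card_eq_one_iff]
      refine ⟨⟨v t, hzero⟩, fun y => Subtype.ext ?_⟩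
      by_contra hy
      obtain ⟨le, hle⟩ := hno y.1 hy
      exact hle (y.2 le)
    rw [this] at hdvd
    have := (Fact.out : p.Prime).one_lt
    have := Nat.le_of_dvd one_pos hdvd
    omega
  obtain ⟨u, hu0, hu⟩ := hex
  refine ⟨u, ?_, ?_⟩
  · intro a ha
    rcases Nat.lt_or_ge a t with hlt | hge
    · intro h
      have h1 := hu (Sum.inr ⟨a, hlt⟩)
      simp only [F, Sum.elim_inr] at h1
      rw [map_sub, eval_X, eval_C, sub_eq_zero, ← h] at h1
      exact hJ ⟨a, hlt⟩ h1
    · have : a = t := by omega
      subst this
      exact fun h => hu0 h.symm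
  · intro i hi hit l
    by_cases hlast : i (Fin.last q) = t + 1
    · let e : Fin q → Fin k := fun a => ⟨i a.castSucc, lt_of_le_of_lt (hit _) htk⟩
      have htup : tup e = i := by
        funext a
        refine Fin.lastCases ?_ (fun b => ?_) a
        · simp only [tup, Fin.snoc_last, hlast]
        · simp only [tup, Fin.snoc_castSucc, e]
      have h1 := hu (Sum.inl (l, e))
      simp only [F, Sum.elim_inl] at h1
      rw [htup, if_pos ⟨hi, hit⟩, map_sub, eval_C, heval, htup, sub_eq_zero] at h1
      exact h1
    · have hall : ∀ a, i a ≤ t := by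
        intro a
        have h1 : i a ≤ i (Fin.last q) := hi (Fin.le_last a)
        have h2 := hit (Fin.last q)
        omega
      have h3 : (fun z : Fin (q + 1) × Fin m => Function.update v (t + 1) u (i z.1) z.2)
          = fun z => v (i z.1) z.2 := by
        funext z
        have := hall z.1
        rw [Function.update_of_ne (by omega)]
      rw [h3]
      exact hv i hi hall l

theorem chain_sym (p : ℕ) [Fact p.Prime] (q k m s D : ℕ)
    (P : Fin s → MvPolynomial (Fin (q + 1) × Fin m) (ZMod p))
    (hP : ∀ l, (P l).totalDegree ≤ D) (hm : s * D * k ^ q + k ≤ m) (t : ℕ) (ht : t < k) :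
    ∃ v : ℕ → Fin m → ZMod p,
      (∀ a b, a < b → b ≤ t → v a ≠ v b) ∧
      (∀ i : Fin (q + 1) → ℕ, Monotone i → (∀ a, i a ≤ t) → ∀ l,
        eval (fun z => v (i z.1) z.2) (P l) = eval (fun _ => 0) (P l)) := by
  induction t with
  | zero =>
    refine ⟨fun _ => 0, fun a b h1 h2 => absurd h1 (by omega), fun i _ _ l => rfl⟩
  | succ t ih =>
    obtain ⟨v, h1, h3⟩ := ih (by omega)
    obtain ⟨u, hu, hw⟩ := step_sym p q k m s D t P hP _ ht hm v (fun a ha => h1 a t ha le_rfl) h3
    refine ⟨Function.update v (t + 1) u, ?_, hw⟩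
    intro a b hab hb
    rcases Nat.lt_or_ge b (t + 1) with hlt | hge
    · rw [Function.update_of_ne (by omega), Function.update_of_ne (by omega)]
      exact h1 a b hab (by omega)
    · have : b = t + 1 := by omega
      subst this
      rw [Function.update_self, Function.update_of_ne (by omega)]
      exact hu a (by omega)

theorem num_inj (p m : ℕ) [NeZero p] : Function.Injective (num p m) := by
  intro x y h
  funext j
  have h1 := num_digit p m x j
  have h2 := num_digit p m y j
  rw [h, h2] at h1
  exact (ZMod.val_injective p h1).symm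

/-- Symmetric colourings: `s * D * k ^ (r - 1) + k ≤ m` suffices. -/
theorem upper_sym (p : ℕ) [Fact p.Prime] (r k m s D : ℕ) (hr : 1 ≤ r)
    (hm : s * D * k ^ (r - 1) + k ≤ m) (κ : Type) (c : Finset ℕ → κ)
    (P : Fin s → MvPolynomial (Fin r × Fin m) (ZMod p)) (g : (Fin s → ZMod p) → κ)
    (hP : ∀ l, (P l).totalDegree ≤ D)
    (hc : ∀ v : Fin r → ℕ, Function.Injective v → (∀ i, v i < p ^ m) →
      c (Finset.univ.image v) =
        g (fun l => eval (fun z => ((v z.1 / p ^ (z.2 : ℕ) % p : ℕ) : ZMod p)) (P l))) :
    ∃ S ⊆ Finset.range (p ^ m), S.card = k ∧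
      ∀ A ⊆ S, ∀ B ⊆ S, A.card = r → B.card = r → c A = c B := by
  classical
  obtain ⟨q, rfl⟩ : ∃ q, r = q + 1 := ⟨r - 1, by omega⟩
  rw [Nat.add_sub_cancel] at hm
  rcases Nat.eq_zero_or_pos k with rfl | hk
  · refine ⟨∅, by simp, by simp, fun A hA B hB hA1 _ => ?_⟩
    rw [Finset.subset_empty] at hA
    rw [hA] at hA1
    simp at hA1
  obtain ⟨v, h2, h3⟩ := chain_sym p q k m s D P hP hm (k - 1) (by omega)
  have hinj : Set.InjOn (fun a => num p m (v a)) (Finset.range k : Set ℕ) := by
    intro a ha b hb hab
    simp only [Finset.coe_range, Set.mem_Iio] at ha hb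
    have h4 := num_inj p m hab
    rcases lt_trichotomy a b with h | h | h
    · exact absurd h4 (h2 a b h (by omega))
    · exact h
    · exact absurd h4.symm (h2 b a h (by omega))
  refine ⟨(Finset.range k).image (fun a => num p m (v a)), ?_, ?_, ?_⟩
  · intro x hx
    obtain ⟨a, -, rfl⟩ := Finset.mem_image.1 hx
    exact Finset.mem_range.2 (num_lt p m _)
  · rw [Finset.card_image_of_injOn hinj, Finset.card_range]
  · have key : ∀ A ⊆ (Finset.range k).image (fun a => num p m (v a)), A.card = q + 1 →
        c A = g (fun l => eval (fun _ => 0) (P l)) := by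
      intro A hA hcard
      -- the index set of `A`
      let I : Finset ℕ := (Finset.range k).filter (fun a => num p m (v a) ∈ A)
      have hIA : I.image (fun a => num p m (v a)) = A := by
        ext x
        rw [Finset.mem_image]
        constructor
        · rintro ⟨a, ha, rfl⟩
          exact (Finset.mem_filter.1 ha).2
        · intro hx
          obtain ⟨a, ha, rfl⟩ := Finset.mem_image.1 (hA hx)
          exact ⟨a, Finset.mem_filter.2 ⟨ha, hx⟩, rfl⟩
      have hIcard : I.card = q + 1 := by
        rw [← hcard, ← hIA, Finset.card_image_of_injOn]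
        exact hinj.mono (fun a ha => (Finset.mem_filter.1 ha).1)
      let i : Fin (q + 1) → ℕ := I.orderEmbOfFin hIcard
      have hiI : ∀ a, i a ∈ I := fun a => I.orderEmbOfFin_mem hIcard a
      have hik : ∀ a, i a < k := fun a => Finset.mem_range.1 (Finset.mem_filter.1 (hiI a)).1
      have himono : StrictMono i := (I.orderEmbOfFin hIcard).strictMono
      have h5 := hc (fun a => num p m (v (i a)))
        (fun a b hab => himono.injective (hinj (by simpa using hik a) (by simpa using hik b) hab))
        (fun a => num_lt p m _)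
      have h6 : Finset.univ.image (fun a => num p m (v (i a))) = A := by
        rw [← hIA]
        ext x
        rw [Finset.mem_image, Finset.mem_image]
        constructor
        · rintro ⟨a, -, rfl⟩
          exact ⟨i a, hiI a, rfl⟩
        · rintro ⟨b, hb, rfl⟩
          have : b ∈ Set.range (I.orderEmbOfFin hIcard) := by
            rw [Finset.range_orderEmbOfFin]; exact hb
          obtain ⟨a, ha⟩ := this
          exact ⟨a, Finset.mem_univ _, by simp only [i, ha]⟩
      rw [h6] at h5
      rw [h5]
      congr 1
      funext l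
      rw [← h3 i himono.monotone (fun a => by have := hik a; omega) l]
      congr 1
      congr 1
      funext z
      rw [num_digit, ZMod.natCast_zmod_val]
    intro A hA B hB hA1 hB1
    rw [key A hA hA1, key B hB hB1]

end Pool.Agent.H161R3
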